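import Mathlib

namespace Pool.Agent.P.MP_4bb7d7_co

open Classical in
/-- Geometric multiplicity over the complex numbers of `l` for the adjacency matrix of `G`. -/
noncomputable def mult {n : ℕ} (G : SimpleGraph (Fin n)) (l : ℂ) : ℕ :=
  Module.finrank ℂ (Module.End.eigenspace (Matrix.toLin' (G.adjMatrix ℂ)) l)

/-- Maximum multiplicity of `l` over all graphs on `n` vertices. -/
noncomputable def maxMult (n : ℕ) (l : ℂ) : ℕ :=
  Finset.univ.sup fun G : SimpleGraph (Fin n) => mult G l

end Pool.Agent.P.MP_4bb7d7_co
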