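import Mathlib

namespace Pool.Agent.P.MP_4bb7d7_co

open Polynomial

theorem ei_prod (a : ℂ) {δ : ℝ} (h0 : 0 ≤ δ) (r : Multiset ℂ) (h : ∀ z ∈ r, δ ≤ ‖a - z‖) :
    δ ^ r.card ≤ ‖(r.map (a - ·)).prod‖ := by
  induction r using Multiset.induction_on with
  | empty => simp
  | cons z r ih =>
    rw [Multiset.card_cons, Multiset.map_cons, Multiset.prod_cons, norm_mul, pow_succ']
    exact mul_le_mul (h z (Multiset.mem_cons_self _ _))
      (ih fun w hw => h w (Multiset.mem_cons_of_mem hw)) (by positivity) (norm_nonneg _)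

/-- `P - p Q` is irreducible for arbitrarily large primes `p`. -/
theorem ei_irr (P Q : ℤ[X]) (hP : P.Monic) (hd : Q.natDegree < P.natDegree) (a : ℤ)
    (ha : P.eval a = 0) (hc : ∀ z : ℂ, aeval z P = 0 → aeval z Q ≠ 0) (N : ℕ) :
    ∃ p : ℕ, N ≤ p ∧ Irreducible (P - C (p : ℤ) * Q) := by
  classical
  have ev : ∀ f : ℤ[X], aeval (a : ℂ) f = ((f.eval a : ℤ) : ℂ) := fun f => by
    simpa using aeval_algebraMap_apply_eq_algebraMap_eval (A := ℂ) a f
  have q0 : Q.eval a ≠ 0 := fun h =>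
    hc a (by rw [ev, ha, Int.cast_zero]) (by rw [ev, h, Int.cast_zero])
  obtain ⟨δ, δ0, δ1, hδ⟩ : ∃ δ : ℝ, 0 < δ ∧ δ ≤ 1 ∧
      ∀ z : ℂ, ‖aeval z Q‖ ≤ ‖aeval z P‖ → δ ≤ ‖(a : ℂ) - z‖ := by
    have ho : IsOpen {z : ℂ | ‖aeval z P‖ < ‖aeval z Q‖} :=
      isOpen_lt P.continuous_aeval.norm Q.continuous_aeval.norm
    obtain ⟨ε, ε0, hε⟩ := Metric.isOpen_iff.1 ho a (by
      show ‖aeval (a : ℂ) P‖ < ‖aeval (a : ℂ) Q‖
      rw [ev, ev, ha, Int.cast_zero, norm_zero, norm_pos_iff]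
      exact_mod_cast q0)
    refine ⟨min ε 1, lt_min ε0 one_pos, min_le_right _ _, fun z hz => ?_⟩
    refine (min_le_left _ _).trans (not_lt.1 fun h => ?_)
    exact not_lt.2 hz (hε (mem_ball_iff_norm'.2 h))
  obtain ⟨d, hd'⟩ : ∃ d, d = P.natDegree := ⟨_, rfl⟩
  obtain ⟨B, hB⟩ : ∃ B : ℝ, B = ‖((Q.eval a : ℤ) : ℂ)‖ / δ ^ d + ‖(a : ℂ)‖ := ⟨_, rfl⟩
  obtain ⟨b, hb⟩ : ∃ b : ℤ, max B 1 ^ d * d.choose (d / 2) ≤ b := ⟨_, Int.le_ceil _⟩
  have hS := bUnion_roots_finite (algebraMap ℤ ℂ) d (Set.finite_Icc (-b) b)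
  obtain ⟨m, hm⟩ := ((hS.image fun z => aeval z P / aeval z Q).preimage
    (Nat.cast_injective (R := ℂ)).injOn).bddAbove
  obtain ⟨p, hp, pp⟩ := Nat.exists_infinite_primes (max N (m + 1))
  refine ⟨p, (le_max_left _ _).trans hp, ?_⟩
  have lt : (C (p : ℤ) * Q).natDegree < P.natDegree := (natDegree_C_mul_le _ _).trans_lt hd
  have fm : (P - C (p : ℤ) * Q).Monic := hP.sub_of_left (degree_lt_degree lt)
  have fd : (P - C (p : ℤ) * Q).natDegree = d := by
    rw [natDegree_sub_eq_left_of_natDegree_lt lt, hd']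
  have key : ∀ g h : ℤ[X], g.Monic → h.Monic → g * h = P - C (p : ℤ) * Q →
      (p : ℤ) ∣ g.eval a → h = 1 := fun g h gm hm' e ⟨t, ht⟩ => by
    by_contra h1
    have hd1 : h.natDegree ≤ d := by
      rw [← fd, ← e, gm.natDegree_mul hm']; omega
    have sp : (h.map (algebraMap ℤ ℂ)).Splits := IsAlgClosed.splits _
    have rt : ∀ z ∈ (h.map (algebraMap ℤ ℂ)).roots, aeval z P = p * aeval z Q := fun z hz => by
      have h2 := (mem_roots'.1 hz).2
      rw [IsRoot, eval_map_algebraMap] at h2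
      have h3 := congrArg (aeval z) e
      rw [map_mul, h2, mul_zero, map_sub, map_mul, aeval_C] at h3
      simpa using sub_eq_zero.1 h3.symm
    have far : ∀ z ∈ (h.map (algebraMap ℤ ℂ)).roots, δ ≤ ‖(a : ℂ) - z‖ := fun z hz => hδ z (by
      rw [rt z hz, norm_mul, Complex.norm_natCast]
      exact le_mul_of_one_le_left (norm_nonneg _) (by exact_mod_cast pp.one_le))
    have le : ‖((h.eval a : ℤ) : ℂ)‖ ≤ ‖((Q.eval a : ℤ) : ℂ)‖ := by
      have h3 := congrArg (eval a) e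
      rw [eval_mul, ht, eval_sub, ha, eval_mul, eval_C, zero_sub, mul_assoc, ← mul_neg] at h3
      have h4 := mul_left_cancel₀ (by exact_mod_cast pp.ne_zero) h3
      have h5 : h.eval a ∣ Q.eval a := ⟨-t, by linear_combination h4⟩
      rw [Complex.norm_intCast, Complex.norm_intCast]
      exact_mod_cast Int.le_of_dvd (abs_pos.2 q0) ((abs_dvd_abs _ _).2 h5)
    have cd : (h.map (algebraMap ℤ ℂ)).roots.card = h.natDegree := by
      rw [← sp.natDegree_eq_card_roots, hm'.natDegree_map]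
    have bd : ∀ z ∈ (h.map (algebraMap ℤ ℂ)).roots, ‖z‖ ≤ B := fun z hz => by
      have h3 := sp.eval_eq_prod_roots_of_monic (hm'.map _) a
      rw [eval_map_algebraMap, ev] at h3
      obtain ⟨r, hr⟩ := Multiset.exists_cons_of_mem hz
      rw [hr] at far cd h3
      rw [h3, Multiset.map_cons, Multiset.prod_cons, norm_mul] at le
      have h4 := ei_prod a δ0.le r fun w hw => far w (Multiset.mem_cons_of_mem hw)
      have h5 : δ ^ d ≤ δ ^ r.card := pow_le_pow_of_le_one δ0.le δ1 (by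
        rw [Multiset.card_cons] at cd; omega)
      have h6 : ‖(a : ℂ) - z‖ ≤ ‖((Q.eval a : ℤ) : ℂ)‖ / δ ^ d := by
        rw [le_div_iff₀ (by positivity)]
        exact (mul_le_mul_of_nonneg_left (h5.trans h4) (norm_nonneg _)).trans le
      have h7 := norm_sub_norm_le z a
      rw [norm_sub_rev] at h7
      linarith
    have pos : 0 < h.natDegree := Nat.pos_of_ne_zero fun h0 => h1 (hm'.natDegree_eq_zero.1 h0)
    obtain ⟨z, hz⟩ := Multiset.card_pos_iff_exists_mem.1 (cd ▸ pos)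
    have qz : aeval z Q ≠ 0 := fun h0 => hc z (by rw [rt z hz, h0, mul_zero]) h0
    have : p ≤ m := hm ⟨z, Set.mem_iUnion₂.2 ⟨h, ⟨hd1, fun i => by
      have h3 := (coeff_bdd_of_roots_le (algebraMap ℤ ℂ) hm' sp hd1 bd i).trans hb
      rw [coeff_map, eq_intCast, Complex.norm_intCast] at h3
      exact abs_le.1 (by exact_mod_cast h3)⟩, by simpa using hz⟩, by
        show aeval z P / aeval z Q = p
        rw [rt z hz, mul_div_cancel_right₀ _ qz]⟩
    have := (le_max_right _ _).trans hp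
    omega
  refine (irreducible_of_monic fm fun h => ?_).2 fun g h gm hm' e => ?_
  · rw [h, natDegree_one] at fd
    omega
  have dv : (p : ℤ) ∣ g.eval a * h.eval a := by
    rw [← eval_mul, e, eval_sub, ha, eval_mul, eval_C, zero_sub]
    exact (dvd_mul_right _ _).neg_right
  rcases (Nat.prime_iff_prime_int.1 pp).dvd_or_dvd dv with h' | h'
  · exact .inr (key g h gm hm' e h')
  · exact .inl (key h g hm' gm (by rw [mul_comm, e]) h')

end Pool.Agent.P.MP_4bb7d7_co
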