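import Pool.Agent.P.MP_4bb7d7_co.EdRoot
import Pool.Agent.P.MP_4bb7d7_co.EdIrr

/-! A witness for every degree and trace. -/

namespace Pool.Agent.P.MP_4bb7d7_co

open Finset Polynomial

def ef_St (S : Set ℤ) (a : ℤ) (T : ℤ → ℤ → Prop) (j : ℕ) (t : ℤ) : Prop :=
  ∃ P Q : ℤ[X], er_Good S j P Q ∧ er_Alg j t P Q ∧ T (Q.eval a) (P.eval a)

def ef_Wit (S : Set ℤ) (d : ℕ) (s : ℤ) : Prop :=
  ∃ l : ℝ, IsIntegral ℤ l ∧ (minpoly ℚ l).natDegree = d ∧ (minpoly ℚ l).nextCoeff = -s ∧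
    (∃ C : ℝ, ∀ n : ℕ, n / d - C * √n ≤ (maxMult n l : ℝ)) ∧
    ((∀ a ∈ S, a = 0 ∨ a = -1) → ∃ C : ℝ, ∀ n : ℕ, n / d - C ≤ (maxMult n l : ℝ))

theorem ef_iter {S : Set ℤ} {a b : ℤ} (hb : b ∈ S) {T : ℤ → ℤ → Prop}
    (hT : ∀ x w, T x w → T w ((a - b) * w - x)) {j : ℕ} {t : ℤ} (h : ef_St S a T j t) (k : ℕ) :
    ef_St S a T (j + k) (t + k * b) := by
  induction k with
  | zero => simpa using h
  | succ k ih =>
    obtain ⟨P, Q, h1, h2, h3⟩ := ih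
    refine ⟨_, _, er_step h1 hb one_pos, ?_, by simpa using hT _ _ h3⟩
    rw [show t + ((k + 1 : ℕ) : ℤ) * b = t + k * b + b by push_cast; ring]
    exact er_astep h2 b one_pos

theorem ef_last {S : Set ℤ} {a : ℤ} (ha : a ∈ S) {T : ℤ → ℤ → Prop} (hT : ∀ x w, T x w → x ≠ 0)
    {j : ℕ} {t : ℤ} (h : ef_St S a T j t) : ef_Wit S (j + 1) (t + a) := by
  obtain ⟨P, Q, h1, h2, h3⟩ := h
  obtain ⟨g1, g2, -, g4, g5, x0, g6⟩ := id h2
  obtain ⟨N, hN⟩ := exists_nat_gt (aeval x0 ((X - C a) * P) / aeval x0 Q)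
  obtain ⟨p, p1, p2⟩ := ei_irr ((X - C a) * P) Q ((monic_X_sub_C a).mul g1)
    (by rw [(monic_X_sub_C a).natDegree_mul g1]; omega) a (by simp) (fun z hz hq => by
      rw [map_mul] at hz
      rcases mul_eq_zero.1 hz with hz | hz
      · have : z = algebraMap ℤ ℂ a := by simpa [sub_eq_zero] using hz
        rw [this, aeval_algebraMap_apply, coe_aeval_eq_eval] at hq
        exact hT _ _ h3 (by simpa using hq)
      · exact g5 z hz hq) (N + 1)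
  have p0 : 0 < p := by omega
  obtain ⟨f1, f2, f3, -, f5, -⟩ := er_astep h2 a p0
  have hg := er_step h1 ha p0
  generalize hf : (X - C a) * P - C (p : ℤ) * Q = f at *
  have hneg : aeval x0 f ≤ 0 := by
    rw [div_lt_iff₀ g6] at hN
    have : (N : ℝ) + 1 ≤ p := by exact_mod_cast p1
    rw [← hf, map_sub, map_mul _ (C (p : ℤ)), aeval_C, eq_intCast (algebraMap ℤ ℝ),
      Int.cast_natCast]
    nlinarith
  obtain ⟨x1, x2, x3⟩ := er_big f1 (by omega) x0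
  obtain ⟨l, -, hl⟩ := intermediate_value_Icc x2 (f := fun x : ℝ => aeval x f)
    f.continuous_aeval.continuousOn ⟨hneg, x3.le⟩
  have h4 : Irreducible (f.map (algebraMap ℤ ℚ)) :=
    f1.irreducible_iff_irreducible_map_fraction_map.1 p2
  have hm : f.map (algebraMap ℤ ℚ) = minpoly ℚ l :=
    minpoly.eq_of_irreducible_of_monic h4 (by rwa [Polynomial.aeval_map_algebraMap]) (f1.map _)
  have hq : aeval l (C (p : ℤ) * P) ≠ 0 := fun h0 =>
    f5 (algebraMap ℝ ℂ l) (by rw [aeval_algebraMap_apply, show aeval l f = 0 from hl, map_zero])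
      (by rw [aeval_algebraMap_apply, h0, map_zero])
  refine ⟨l, ⟨f, f1, hl⟩, by rw [← hm, f1.natDegree_map, f2], ?_, er_use hg hl hq⟩
  rw [← hm, nextCoeff_map (algebraMap ℤ ℚ).injective_int, f3]
  simp

theorem ef_tail {S : Set ℤ} {a : ℤ} (ha : a ∈ S) {j : ℕ} {t : ℤ}
    (h : ef_St S a (fun x w => x ≠ 0 ∧ w ≠ 0) j t) (k : ℕ) :
    ef_Wit S (j + k + 1) (t + k * a + a) :=
  ef_last ha (fun _ _ h => h.1) (ef_iter ha (fun x w h => ⟨h.2, by simpa using h.1⟩) h k)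

theorem ef_const {S : Set ℤ} {a : ℤ} (ha : a ∈ S) {d : ℕ} (hd : 2 ≤ d) : ef_Wit S d (d * a) := by
  rcases hd.eq_or_lt with rfl | hd
  · convert ef_last ha (T := fun x _ => x ≠ 0) (fun _ _ h => h)
      ⟨_, _, er_base1 ha one_pos, er_abase1 a one_pos, by simp⟩ using 1
    push_cast
    ring
  · obtain ⟨k, rfl⟩ : ∃ k, d = 2 + k + 1 := ⟨d - 3, by omega⟩
    convert ef_tail ha ⟨_, _, er_base2 ha, er_abase2 a, by simp⟩ k using 1
    push_cast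
    ring

theorem ef_in {d : ℕ} (hd : 2 ≤ d) {s : ℤ} (h1 : -(d : ℤ) ≤ s) (h2 : s ≤ 0) :
    ef_Wit {0, -1} d s := by
  rcases h1.eq_or_lt with rfl | h1
  · simpa using ef_const (S := {0, -1}) (a := -1) (by simp) hd
  rcases h2.eq_or_lt with rfl | h2
  · simpa using ef_const (S := {0, -1}) (a := 0) (by simp) hd
  obtain ⟨i, k, rfl, rfl⟩ : ∃ i k : ℕ, s = -1 + i * -1 + k * 0 + 0 ∧ d = 1 + i + k + 1 :=
    ⟨(-s - 1).toNat, (d + s - 1).toNat, by omega, by omega⟩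
  obtain ⟨P, Q, g1, g2, g3⟩ := ef_iter (S := {0, -1}) (a := 0) (b := -1) (by simp)
    (T := fun x w => x ≠ 0 ∧ w ≠ 0 ∧ x ≠ w) (fun x w h => by omega)
    ⟨_, _, er_base1 (b := -1) (by simp) two_pos, er_abase1 (-1) two_pos, by simp⟩ i
  exact ef_tail (by simp) ⟨P, Q, g1, g2, g3.1, g3.2.1⟩ k

theorem ef_out {d : ℕ} (hd : 2 ≤ d) {s : ℤ} (h : s ≠ 0) : ef_Wit Set.univ d s := by
  obtain ⟨k, rfl⟩ : ∃ k, d = 1 + k + 1 := ⟨d - 2, by omega⟩
  simpa using ef_tail (S := Set.univ) (a := 0) trivial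
    ⟨_, _, er_base1 (b := s) (Set.mem_univ _) one_pos, er_abase1 s one_pos, by simpa using h⟩ k

end Pool.Agent.P.MP_4bb7d7_co
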