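import Pool.Agent.P.MP_4bb7d7_co.QuadLo

namespace Pool.Agent.P.MP_4bb7d7_co

open Matrix Finset Polynomial
open scoped Kronecker

/-- all entries are `0`, `1` or `-1` -/
def ey_Sg {K : Type} (W : Matrix K K ℤ) : Prop := ∀ i j, W i j = 0 ∨ W i j = 1 ∨ W i j = -1

theorem ey_sg_one {K : Type} [DecidableEq K] : ey_Sg (1 : Matrix K K ℤ) := fun i j => by
  by_cases h : i = j <;> simp [one_apply, h]

theorem ey_sg_kron {K K' : Type} {A : Matrix K K ℤ} {B : Matrix K' K' ℤ} (hA : ey_Sg A)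
    (hB : ey_Sg B) : ey_Sg (A ⊗ₖ B) := fun i j => by
  rw [kroneckerMap_apply]
  rcases hA i.1 j.1 with h | h | h <;> rcases hB i.2 j.2 with h' | h' | h' <;> simp [h, h']

theorem ey_family {I : Type} [DecidableEq I] (q : I → ℕ) (s : Finset I) :
    ∃ (K : Type) (_ : Fintype K) (_ : DecidableEq K) (V : I → Matrix K K ℤ),
      0 < Fintype.card K ∧ ∀ i ∈ s, (V i)ᵀ = V i ∧ V i * V i = (q i : ℤ) • 1 ∧ ey_Sg (V i) ∧
        ∀ k ∈ s, i ≠ k → ey_Sg (V i * V k) := by
  induction s using Finset.induction_on with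
  | empty => exact ⟨Unit, inferInstance, inferInstance, 0, by simp, by simp⟩
  | insert j s hj ih =>
    obtain ⟨K, _, _, V, h0, hV⟩ := ih
    obtain ⟨K', _, _, W, w0, w1, w2, w3⟩ := exists_weigh (q j)
    have wT : Wᵀ = W := by ext x y; exact w1 y x
    refine ⟨K × K', inferInstance, inferInstance,
      fun i => if i = j then (1 : Matrix K K ℤ) ⊗ₖ W else V i ⊗ₖ (1 : Matrix K' K' ℤ),
      by rw [Fintype.card_prod]; positivity, fun i hi => ?_⟩
    by_cases e : i = j
    · subst e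
      simp only [if_true]
      refine ⟨by rw [← kroneckerMap_transpose, transpose_one, wT], ?_,
        ey_sg_kron ey_sg_one w3, fun k hk hik => ?_⟩
      · rw [← mul_kronecker_mul, w2, Matrix.mul_one, kronecker_smul, one_kronecker_one]
      · rw [if_neg hik.symm, ← mul_kronecker_mul, Matrix.one_mul, Matrix.mul_one]
        exact ey_sg_kron (hV k ((mem_insert.1 hk).resolve_left hik.symm)).2.2.1 w3
    · obtain ⟨v1, v2, v3, v4⟩ := hV i ((mem_insert.1 hi).resolve_left e)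
      simp only [if_neg e]
      refine ⟨by rw [← kroneckerMap_transpose, transpose_one, v1], ?_,
        ey_sg_kron v3 ey_sg_one, fun k hk hik => ?_⟩
      · rw [← mul_kronecker_mul, v2, Matrix.mul_one, smul_kronecker, one_kronecker_one]
      · by_cases e' : k = j
        · rw [if_pos e', ← mul_kronecker_mul, Matrix.one_mul, Matrix.mul_one]
          exact ey_sg_kron v3 w3
        · rw [if_neg e', ← mul_kronecker_mul, Matrix.one_mul]
          exact ey_sg_kron (v4 k ((mem_insert.1 hk).resolve_left e') hik) ey_sg_one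

/-- the layer graph of a symmetric matrix -/
def ey_lay {J X : Type} (M : Matrix J J ℤ) (hM : ∀ i j, M i j = M j i) (D : J → SimpleGraph X) :
    SimpleGraph (J × X) where
  Adj a b := (a.1 = b.1 ∧ (D a.1).Adj a.2 b.2) ∨
    (a.1 ≠ b.1 ∧ ((M a.1 b.1 = 1 ∧ a.2 = b.2) ∨ (M a.1 b.1 = -1 ∧ a.2 ≠ b.2)))
  symm := ⟨by
    rintro ⟨i, x⟩ ⟨j, y⟩ (⟨h, h'⟩ | ⟨h, h'⟩)
    · obtain rfl : i = j := h
      exact .inl ⟨rfl, h'.symm⟩
    · exact .inr ⟨h.symm, h'.imp (fun h => ⟨hM _ _ ▸ h.1, h.2.symm⟩)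
        fun h => ⟨hM _ _ ▸ h.1, h.2.symm⟩⟩⟩
  loopless := ⟨by
    rintro a (h | h)
    · exact h.2.ne rfl
    · exact h.1 rfl⟩

theorem ey_gen {J K X : Type} [Fintype J] [Fintype K] [DecidableEq K] [Fintype X]
    (M : Matrix J J ℤ) (hM : ∀ i j, M i j = M j i)
    (hs : ∀ i j, i ≠ j → M i j = 0 ∨ M i j = 1 ∨ M i j = -1) {l : ℂ} (E : J → K → ℂ)
    (hE : ∀ i k, ∑ j, (M i j : ℂ) * E j k = l * E i k) (F : K → J → ℂ)
    (hF : ∀ k k', ∑ j, F k j * E j k' = if k = k' then 1 else 0)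
    (Z : Submodule ℂ (X → ℂ)) (hZ : ∀ v ∈ Z, ∑ y, v y = 0) (hD : ∀ j, ∃ D, Act Z D (M j j))
    {n : ℕ} (hn : Fintype.card J * Fintype.card X ≤ n) :
    Fintype.card K * Module.finrank ℂ Z ≤ maxMult n l := by
  classical
  choose D hD using hD
  let Φ : (K → Z) →ₗ[ℂ] (J × X) → ℂ :=
    { toFun f c := ∑ k, E c.1 k * (f k).1 c.2
      map_add' f g := by
        funext c
        simp [mul_add, Finset.sum_add_distrib]
      map_smul' r f := by
        funext c
        simp [Finset.mul_sum, mul_left_comm] }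
  have e1 : ∀ f c, Φ f c = ∑ k, E c.1 k * (f k).1 c.2 := fun _ _ => rfl
  have m1 : ∀ f i, (fun x => Φ f (i, x)) ∈ Z := fun f i => by
    have : (fun x => Φ f (i, x)) = ∑ k, E i k • (f k).1 := by
      funext x; simp [e1]
    rw [this]
    exact Z.sum_mem fun k _ => Z.smul_mem _ (f k).2
  have inv : ∀ f k x, ∑ j, F k j * Φ f (j, x) = (f k).1 x := fun f k x => by
    simp only [e1, Finset.mul_sum, ← mul_assoc]
    rw [Finset.sum_comm]
    simp only [← Finset.sum_mul, hF]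
    simp
  have := le_maxMult (ey_lay M hM D) (n := n) (l := l) (by simpa using hn) Φ
    (fun f g h => funext fun k => Subtype.ext (funext fun x => by
      rw [← inv f k x, ← inv g k x, h])) (by
      rintro f ⟨i, x⟩
      rw [Fintype.sum_prod_type]
      have : ∀ j, ∑ y, (if (ey_lay M hM D).Adj (i, x) (j, y) then Φ f (j, y) else 0) =
          M i j * Φ f (j, x) := fun j => by
        by_cases e : i = j
        · subst e
          rw [← hD i _ (m1 f i) x]
          exact Finset.sum_congr rfl fun y _ => if_congr (by simp [ey_lay]) rfl rfl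
        · exact cross (hs i j e) (hZ _ (m1 f j)) x _ fun y => by simp [ey_lay, e]
      refine (Finset.sum_congr rfl fun j _ => ?_).trans
        (?_ : ∑ j, (M i j : ℂ) * Φ f (j, x) = _)
      · convert this j
      simp only [e1, Finset.mul_sum, ← mul_assoc]
      rw [Finset.sum_comm]
      simp only [← Finset.sum_mul, hE])
  rwa [Module.finrank_pi_fintype, Finset.sum_const, card_univ, smul_eq_mul] at this

theorem ey_build {I : Type} [Fintype I] [DecidableEq I] (H : SimpleGraph I) [DecidableRel H.Adj]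
    (a : I → ℤ) (q : I → ℕ) (hq : ∀ i, 0 < q i) {l : ℝ} {u : I → ℝ} (u0 : u ≠ 0)
    (hu : ∀ i, a i * u i + ∑ k, (if H.Adj i k then (q k : ℝ) * u k else 0) = l * u i) :
    ∃ κ : ℕ, 0 < κ ∧ ∀ (X : Type) [Fintype X] (Z : Submodule ℂ (X → ℂ)),
      (∀ v ∈ Z, ∑ y, v y = 0) → (∀ i, ∃ D, Act Z D (a i)) → ∀ n,
      Fintype.card I * (κ * Fintype.card X) ≤ n → κ * Module.finrank ℂ Z ≤ maxMult n l := by
  obtain ⟨K, _, _, V, h0, hV⟩ := ey_family q univ
  have v1 : ∀ i x y, V i x y = V i y x := fun i x y =>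
    congrFun (congrFun (hV i (mem_univ i)).1 y) x
  have v2 : ∀ i x z, ∑ y, (V i x y : ℂ) * V i y z = if x = z then (q i : ℂ) else 0 :=
    fun i x z => by
      simp only [← Int.cast_mul, ← Int.cast_sum, ← Matrix.mul_apply, (hV i (mem_univ i)).2.1]
      by_cases h : x = z <;> simp [one_apply, h]
  obtain ⟨i0, hi0⟩ := Function.ne_iff.1 u0
  refine ⟨Fintype.card K, h0, fun X _ Z hZ hD n hn => ?_⟩
  refine ey_gen (J := I × K) (fun b c => (if b = c then a b.1 else 0) +
      if H.Adj b.1 c.1 then (V b.1 * V c.1) b.2 c.2 else 0) ?_ ?_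
    (fun b z => (u b.1 : ℂ) * V b.1 b.2 z) ?_
    (fun z b => if b.1 = i0 then (V i0 z b.2 : ℂ) / (u i0 * q i0) else 0) ?_ Z hZ
    (fun b => by simpa using hD b.1) (by rwa [Fintype.card_prod, mul_assoc])
  · rintro ⟨i, x⟩ ⟨k, y⟩
    congr 1
    · by_cases h : (i, x) = (k, y)
      · rw [if_pos h, if_pos h.symm, h]
      · rw [if_neg h, if_neg (Ne.symm h)]
    · refine if_congr (H.adj_comm _ _) ?_ rfl
      simp only [Matrix.mul_apply]
      exact Finset.sum_congr rfl fun w _ => by rw [v1 i x w, v1 k w y, mul_comm]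
  · rintro ⟨i, x⟩ ⟨k, y⟩ h
    simp only [if_neg h, zero_add]
    split_ifs with h'
    · exact (hV i (mem_univ i)).2.2.2 k (mem_univ k) h'.ne x y
    · exact .inl rfl
  · rintro ⟨i, x⟩ z
    have e1 : ∀ k, ∑ y, ((if H.Adj i k then (V i * V k) x y else 0 : ℤ) : ℂ) *
        ((u k : ℂ) * V k y z) = (if H.Adj i k then (q k : ℂ) * u k else 0) * V i x z := fun k => by
      split_ifs with h
      · simp only [Matrix.mul_apply, Int.cast_sum, Int.cast_mul, Finset.sum_mul]
        rw [Finset.sum_comm]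
        have : ∀ w, ∑ y, (V i x w : ℂ) * V k w y * (u k * V k y z) =
            u k * V i x w * ∑ y, (V k w y : ℂ) * V k y z := fun w => by
          rw [Finset.mul_sum]
          exact Finset.sum_congr rfl fun y _ => by ring
        simp only [this, v2]
        simp
        ring
      · simp
    have e2 : (a i : ℂ) * u i + ∑ k, (if H.Adj i k then (q k : ℂ) * u k else 0) = l * u i := by
      have := congrArg (fun r : ℝ => (r : ℂ)) (hu i)
      simpa [apply_ite (fun r : ℝ => (r : ℂ))] using this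
    simp only [Int.cast_add, add_mul, Finset.sum_add_distrib]
    rw [Fintype.sum_prod_type (f := fun b : I × K =>
      ((if H.Adj i b.1 then (V i * V b.1) x b.2 else 0 : ℤ) : ℂ) * ((u b.1 : ℂ) * V b.1 b.2 z))]
    simp only [e1]
    rw [← Finset.sum_mul, ← mul_assoc, ← e2, Finset.sum_eq_single (i, x)
      (fun b _ hb => by simp [hb.symm]) (by simp)]
    simp
    ring
  · intro z z'
    have c1 : (u i0 : ℂ) ≠ 0 := by exact_mod_cast hi0
    have c2 : (q i0 : ℂ) ≠ 0 := by exact_mod_cast (hq i0).ne'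
    rw [Fintype.sum_prod_type, Finset.sum_eq_single i0 (fun i _ hi => by simp [hi]) (by simp)]
    have : ∀ y, (if i0 = i0 then (V i0 z y : ℂ) / (u i0 * q i0) else 0) * (u i0 * V i0 y z') =
        (q i0 : ℂ)⁻¹ * (V i0 z y * V i0 y z') := fun y => by
      rw [if_pos rfl]; field_simp
    refine (Finset.sum_congr rfl fun y _ => this y).trans ?_
    rw [← Finset.mul_sum, v2]
    split_ifs <;> simp [c2]

theorem ey_const {I : Type} [Fintype I] [DecidableEq I] [Nonempty I] (H : SimpleGraph I)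
    [DecidableRel H.Adj] (a : I → ℤ) (q : I → ℕ) (hq : ∀ i, 0 < q i) {l : ℝ} {u : I → ℝ}
    (u0 : u ≠ 0)
    (hu : ∀ i, a i * u i + ∑ k, (if H.Adj i k then (q k : ℝ) * u k else 0) = l * u i)
    (ha : ∀ i, a i = 0 ∨ a i = -1) :
    ∃ C : ℝ, ∀ n : ℕ, n / Fintype.card I - C ≤ (maxMult n l : ℝ) := by
  obtain ⟨k, k0, hk⟩ := ey_build H a q hq u0 hu
  have d0 : 0 < Fintype.card I := Fintype.card_pos
  generalize Fintype.card I = d at *
  refine ⟨2 * k, fun n => ?_⟩
  obtain ⟨Z, z1, z2, z3⟩ := small (n / (d * k))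
  have a1 := hk _ Z z1 (fun i => z3 _ (ha i)) n (by
    rw [Fintype.card_fin, ← mul_assoc]; exact Nat.mul_div_le _ _)
  have a2 := Nat.lt_mul_div_succ n (show 0 < d * k by positivity)
  have a3 : ((n : ℕ) : ℝ) ≤ ((maxMult n l + 2 * k) * d : ℕ) :=
    Nat.cast_le.2 (by nlinarith [Nat.mul_le_mul_left (d * k) z2, Nat.mul_le_mul_left d a1])
  push_cast at a3
  rw [sub_le_iff_le_add, div_le_iff₀ (Nat.cast_pos.2 d0)]
  exact a3

theorem ey_sqrt {I : Type} [Fintype I] [DecidableEq I] [Nonempty I] (H : SimpleGraph I)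
    [DecidableRel H.Adj] (a : I → ℤ) (q : I → ℕ) (hq : ∀ i, 0 < q i) {l : ℝ} {u : I → ℝ}
    (u0 : u ≠ 0)
    (hu : ∀ i, a i * u i + ∑ k, (if H.Adj i k then (q k : ℝ) * u k else 0) = l * u i) :
    ∃ C : ℝ, ∀ n : ℕ, n / Fintype.card I - C * √n ≤ (maxMult n l : ℝ) := by
  obtain ⟨k, k0, hk⟩ := ey_build H a q hq u0 hu
  have d0 : 0 < Fintype.card I := Fintype.card_pos
  obtain ⟨J, hJ⟩ : ∃ J : ℕ, ∀ i, |a i| ≤ J := ⟨univ.sup fun i => (a i).natAbs, fun i => by
    rw [← Int.natCast_natAbs]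
    exact_mod_cast Finset.le_sup (f := fun i => (a i).natAbs) (mem_univ i)⟩
  generalize Fintype.card I = d at *
  refine ⟨k * (J + 1) ^ 2 + 3 * k, fun n => ?_⟩
  rcases Nat.eq_zero_or_pos n with rfl | n0
  · simp
  obtain ⟨N, hN⟩ : ∃ N, N = Nat.sqrt (n / (d * k)) := ⟨_, rfl⟩
  obtain ⟨Z, z1, z2, z3⟩ := large N J
  have b1 : N * N ≤ n / (d * k) := hN ▸ Nat.sqrt_le _
  have b2 : n / (d * k) < (N + 1) * (N + 1) := hN ▸ Nat.lt_succ_sqrt _
  have a1 := hk _ Z z1 (fun i => z3 _ (hJ i)) n (by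
    rw [Fintype.card_prod, Fintype.card_fin, ← mul_assoc]
    exact (Nat.mul_le_mul_left _ b1).trans (Nat.mul_div_le _ _))
  have a2 := (Nat.lt_mul_div_succ n (show 0 < d * k by positivity)).le.trans
    (Nat.mul_le_mul_left _ b2)
  have a0 : k * ((N + 1) * (N + 1)) ≤ maxMult n l + (k * (J + 1) ^ 2 + 2 * k) * N + k := by
    nlinarith [Nat.mul_le_mul_left k z2]
  have a3 : ((n : ℕ) : ℝ) ≤ ((maxMult n l + (k * (J + 1) ^ 2 + 2 * k) * N + k) * d : ℕ) :=
    Nat.cast_le.2 (by nlinarith [Nat.mul_le_mul_left d a0])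
  have a4 : (N : ℝ) ≤ √n := Real.le_sqrt_of_sq_le (by
    have := b1.trans (Nat.div_le_self _ _)
    rw [sq]
    exact_mod_cast this)
  have a5 : (1 : ℝ) ≤ √n := Real.le_sqrt_of_sq_le (by rw [one_pow]; exact_mod_cast n0)
  have a6 := mul_le_mul_of_nonneg_left a4 (show (0 : ℝ) ≤ k * (J + 1) ^ 2 + 2 * k by positivity)
  have a7 := mul_le_mul_of_nonneg_left a5 (show (0 : ℝ) ≤ k by positivity)
  push_cast at a3
  rw [← div_le_iff₀ (Nat.cast_pos.2 d0)] at a3
  linarith

end Pool.Agent.P.MP_4bb7d7_co
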