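import Pool.Agent.P.MP_4bb7d7_co.EdLay

/-! Weighted graphs grown one vertex at a time. -/

namespace Pool.Agent.P.MP_4bb7d7_co

open Finset Polynomial

open Classical in
def er_Good (S : Set ℤ) (j : ℕ) (P Q : ℤ[X]) : Prop :=
  ∃ (I : Type) (_ : Fintype I) (H : SimpleGraph I) (a : I → ℤ) (q : I → ℕ) (r : I → Prop),
    Fintype.card I = j ∧ (∀ i, a i ∈ S) ∧ (∀ i, 0 < q i) ∧
    ∀ x : ℝ, ∃ u : I → ℝ, (∑ i, if r i then (q i : ℝ) * u i else 0) = aeval x Q ∧
      ∀ i, a i * u i + ∑ k, (if H.Adj i k then (q k : ℝ) * u k else 0) =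
        x * u i - if r i then aeval x P else 0

def er_adj {I : Type} (H : SimpleGraph I) (r : I → Prop) : Option I → Option I → Prop
  | some i, some k => H.Adj i k
  | some i, none => r i
  | none, some k => r k
  | none, none => False

def er_opt {I : Type} (H : SimpleGraph I) (r : I → Prop) : SimpleGraph (Option I) where
  Adj := er_adj H r
  symm := ⟨by
    rintro (_ | i) (_ | k) h
    · exact h
    · exact h
    · exact h
    · exact H.adj_symm h⟩
  loopless := ⟨by
    rintro (_ | i) h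
    · exact h
    · exact H.irrefl h⟩

theorem er_step {S : Set ℤ} {j : ℕ} {P Q : ℤ[X]} (h : er_Good S j P Q) {b : ℤ} (hb : b ∈ S)
    {c : ℕ} (hc : 0 < c) : er_Good S (j + 1) ((X - C b) * P - C (c : ℤ) * Q) (C (c : ℤ) * P) := by
  classical
  obtain ⟨I, _, H, a, q, r, h1, h2, h3, h4⟩ := h
  refine ⟨Option I, inferInstance, er_opt H r, fun o => o.elim b a, fun o => o.elim c q,
    fun o => o = none, by simp [h1], ?_, ?_, fun x => ?_⟩
  · rintro (_ | i)
    · exact hb
    · exact h2 i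
  · rintro (_ | i)
    · exact hc
    · exact h3 i
  obtain ⟨u, u1, u2⟩ := h4 x
  have key : ∀ (p : I → Prop), (∑ k, if p k then (q k : ℝ) * (c * u k) else 0) =
      c * ∑ k, if p k then (q k : ℝ) * u k else 0 := fun p => by
    rw [mul_sum]
    exact sum_congr rfl fun k _ => by split_ifs <;> ring
  refine ⟨fun o => o.elim (aeval x P) fun i => c * u i, ?_, ?_⟩
  · simp [Fintype.sum_option]
  rintro (_ | i)
  · have := key r
    rw [u1] at this
    rw [Fintype.sum_option, if_neg (show ¬(er_opt H r).Adj none none from id), if_pos rfl]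
    change (b : ℝ) * aeval x P + (0 + ∑ k, if r k then (q k : ℝ) * (c * u k) else 0) =
      x * aeval x P - _
    rw [this]
    simp only [map_sub, map_mul, aeval_X, eq_intCast, map_intCast, map_natCast, Int.cast_natCast]
    ring
  · have := key (H.Adj i)
    have h5 := u2 i
    rw [Fintype.sum_option, if_neg (show ¬(some i = none) by simp)]
    change (a i : ℝ) * (c * u i) + ((if r i then (c : ℝ) * aeval x P else 0) +
      ∑ k, if H.Adj i k then (q k : ℝ) * (c * u k) else 0) = x * (c * u i) - 0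
    rw [this]
    by_cases hr : r i
    · rw [if_pos hr] at h5 ⊢
      linear_combination c * h5
    · rw [if_neg hr] at h5 ⊢
      linear_combination c * h5

theorem er_base1 {S : Set ℤ} {b : ℤ} (hb : b ∈ S) {c : ℕ} (hc : 0 < c) :
    er_Good S 1 (X - C b) (C (c : ℤ)) := by
  refine ⟨Unit, inferInstance, ⊥, fun _ => b, fun _ => c, fun _ => True, by simp, fun _ => hb,
    fun _ => hc, fun x => ⟨fun _ => 1, by simp, fun i => by simp⟩⟩

theorem er_base2 {S : Set ℤ} {b : ℤ} (hb : b ∈ S) :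
    er_Good S 2 ((X - C b) ^ 2 - C 2) (C 3 * (X - C b) + C 4) := by
  refine ⟨Bool, inferInstance, ⊤, fun _ => b, fun i => if i then 2 else 1, fun _ => True, by simp,
    fun _ => hb, fun i => by cases i <;> simp,
    fun x => ⟨fun i => if i then x - b + 1 else x - b + 2, ?_, fun i => ?_⟩⟩
  · simp only [map_add, map_sub, map_mul, aeval_X, eq_intCast, map_intCast, Int.cast_ofNat,
      map_ofNat]
    simp
    ring
  · simp only [map_sub, map_pow, aeval_X, eq_intCast, map_intCast, Int.cast_ofNat,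
      map_ofNat]
    cases i <;> simp <;> ring

theorem er_use {S : Set ℤ} {j : ℕ} {P Q : ℤ[X]} (h : er_Good S j P Q) {l : ℝ}
    (hP : aeval l P = 0) (hQ : aeval l Q ≠ 0) :
    (∃ C : ℝ, ∀ n : ℕ, n / j - C * √n ≤ (maxMult n l : ℝ)) ∧
    ((∀ a ∈ S, a = 0 ∨ a = -1) → ∃ C : ℝ, ∀ n : ℕ, n / j - C ≤ (maxMult n l : ℝ)) := by
  classical
  obtain ⟨I, _, H, a, q, r, h1, h2, h3, h4⟩ := h
  obtain ⟨u, u1, u2⟩ := h4 l
  have u0 : u ≠ 0 := by
    rintro rfl
    exact hQ (by simpa using u1.symm)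
  haveI : Nonempty I := by
    by_contra hI
    rw [not_nonempty_iff] at hI
    exact u0 (funext fun i => hI.elim i)
  subst h1
  have hu : ∀ i, a i * u i + ∑ k, (if H.Adj i k then (q k : ℝ) * u k else 0) = l * u i :=
    fun i => by simpa [hP] using u2 i
  exact ⟨ey_sqrt H a q h3 u0 hu, fun hS => ey_const H a q h3 u0 hu fun i => hS _ (h2 i)⟩

def er_Alg (j : ℕ) (t : ℤ) (P Q : ℤ[X]) : Prop :=
  P.Monic ∧ P.natDegree = j ∧ P.nextCoeff = -t ∧ Q.natDegree < j ∧
    (∀ z : ℂ, aeval z P = 0 → aeval z Q ≠ 0) ∧ ∃ x : ℝ, 0 < aeval x Q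

theorem er_big {P : ℤ[X]} (hP : P.Monic) (hd : 0 < P.natDegree) (x0 : ℝ) :
    ∃ x : ℝ, x0 ≤ x ∧ 0 < aeval x P := by
  have hm := hP.map (algebraMap ℤ ℝ)
  have h := Polynomial.tendsto_atTop_of_leadingCoeff_nonneg (P.map (algebraMap ℤ ℝ))
    (natDegree_pos_iff_degree_pos.1 (by rwa [hP.natDegree_map])) (by rw [hm.leadingCoeff]; norm_num)
  obtain ⟨x, h1, h2⟩ := ((Filter.eventually_ge_atTop x0).and (h.eventually_gt_atTop 0)).exists
  exact ⟨x, h1, by rwa [Polynomial.eval_map_algebraMap] at h2⟩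

theorem er_astep {j : ℕ} {t : ℤ} {P Q : ℤ[X]} (h : er_Alg j t P Q) (b : ℤ) {c : ℕ} (hc : 0 < c) :
    er_Alg (j + 1) (t + b) ((X - C b) * P - C (c : ℤ) * Q) (C (c : ℤ) * P) := by
  obtain ⟨h1, h2, h3, h4, h5, -⟩ := h
  have hm : ((X - C b) * P).Monic := (monic_X_sub_C b).mul h1
  have hd : ((X - C b) * P).natDegree = j + 1 := by
    rw [(monic_X_sub_C b).natDegree_mul h1, natDegree_X_sub_C, h2, add_comm]
  have hq : (C (c : ℤ) * Q).natDegree < j := (natDegree_C_mul_le _ _).trans_lt h4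
  have hd' : ((X - C b) * P - C (c : ℤ) * Q).natDegree = j + 1 := by
    rw [natDegree_sub_eq_left_of_natDegree_lt (by omega), hd]
  have c0 : (c : ℂ) ≠ 0 := by exact_mod_cast hc.ne'
  refine ⟨hm.sub_of_left (degree_lt_degree (by omega)), hd', ?_,
    ((natDegree_C_mul_le _ _).trans h2.le).trans_lt (by omega), fun z hz hz' => ?_, ?_⟩
  · have := (monic_X_sub_C b).nextCoeff_mul h1
    rw [nextCoeff_X_sub_C, h3, nextCoeff_of_natDegree_pos (by omega), hd] at this
    rw [nextCoeff_of_natDegree_pos (by omega), hd', coeff_sub, this,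
      coeff_eq_zero_of_natDegree_lt (by omega)]
    ring
  · simp only [map_sub, map_mul, aeval_X, eq_intCast, map_intCast, map_natCast,
      Int.cast_natCast] at hz hz'
    have hP : aeval z P = 0 := (mul_eq_zero.1 hz').resolve_left c0
    rw [hP, mul_zero, zero_sub, neg_eq_zero] at hz
    exact h5 z hP ((mul_eq_zero.1 hz).resolve_left c0)
  · obtain ⟨x, -, hx⟩ := er_big h1 (by omega) 0
    refine ⟨x, ?_⟩
    simp only [map_mul, eq_intCast, map_intCast, map_natCast,
      Int.cast_natCast]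
    positivity

theorem er_abase1 (b : ℤ) {c : ℕ} (hc : 0 < c) : er_Alg 1 b (X - C b) (C (c : ℤ)) :=
  ⟨monic_X_sub_C b, natDegree_X_sub_C b, nextCoeff_X_sub_C b, by rw [natDegree_C]; norm_num,
    fun z _ => by simpa using hc.ne', 0, by simpa using hc⟩

theorem er_abase2 (b : ℤ) :
    er_Alg 2 (2 * b) ((X - C b) ^ 2 - C 2) (C 3 * (X - C b) + C 4) := by
  have hd : ((X - C b) ^ 2 - C 2 : ℤ[X]).natDegree = 2 := by compute_degree!
  refine ⟨by monicity!, hd, ?_, ?_, fun z hz hz' => ?_, b, ?_⟩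
  · rw [nextCoeff_of_natDegree_pos (by omega), hd, sub_sq]
    rw [← C_pow, coeff_sub, coeff_add, coeff_C, coeff_C, coeff_sub, coeff_mul_C]
    simp [coeff_X, coeff_ofNat_mul]
  · exact lt_of_le_of_lt (b := 1) (by compute_degree) (by norm_num)
  · simp only [map_add, map_sub, map_mul, map_pow, aeval_X, eq_intCast, map_intCast, Int.cast_ofNat,
      map_ofNat] at hz hz'
    push_cast at hz hz'
    have : (2 : ℂ) = 0 := by linear_combination (3 * (z - b) - 4) * hz' - 9 * hz
    norm_num at this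
  · simp [map_ofNat]

end Pool.Agent.P.MP_4bb7d7_co
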