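import Pool.Agent.P.MP_4bb7d7_co.QuadUp

namespace Pool.Agent.P.MP_4bb7d7_co

open Matrix Finset Polynomial

theorem eu_sub {α β : Type} (μ : α → β) (s : Multiset β) :
    ∀ t : Multiset α, s ≤ t.map μ → ∃ u ≤ t, u.map μ = s := by
  induction s using Multiset.induction_on with
  | empty => exact fun t _ => ⟨0, Multiset.zero_le _, rfl⟩
  | cons b s ih =>
    intro t h
    obtain ⟨a, ha, rfl⟩ := Multiset.mem_map.1 (Multiset.mem_of_le h (Multiset.mem_cons_self _ _))
    obtain ⟨t', rfl⟩ := Multiset.exists_cons_of_mem ha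
    rw [Multiset.map_cons, Multiset.cons_le_cons_iff] at h
    obtain ⟨u, hu, rfl⟩ := ih t' h
    exact ⟨a ::ₘ u, Multiset.cons_le_cons _ hu, Multiset.map_cons _ _ _⟩

/-- all conjugates at once: the key inequality for a real algebraic number of any degree -/
theorem eu_core (l : ℝ) (hl : IsIntegral ℚ l) : ∃ M : ℝ, 0 ≤ M ∧
    ∀ (n : ℕ) (G : SimpleGraph (Fin n)), ∃ m t : ℕ, mult G l ≤ m ∧
      n = (minpoly ℚ l).natDegree * m + t ∧ ∀ α τ : ℝ, 0 ≤ τ →
      τ ≤ (2 * α + 1) * (m * (-((minpoly ℚ l).nextCoeff : ℝ))) - α ^ 2 * n →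
      τ ^ 2 ≤ ((t : ℝ) ^ 2 + t) * ((M + 1) ^ 2 * (n * M ^ 2)) := by
  classical
  obtain ⟨f, hf⟩ : ∃ f, f = (minpoly ℚ l).map (algebraMap ℚ ℝ) := ⟨_, rfl⟩
  have fm : f.Monic := hf ▸ (minpoly.monic hl).map _
  have M0 : ∀ x ∈ f.roots.map fun x => |x|, (0 : ℝ) ≤ x := fun x hx => by
    obtain ⟨y, -, rfl⟩ := Multiset.mem_map.1 hx
    exact abs_nonneg y
  refine ⟨(f.roots.map fun x => |x|).sum, Multiset.sum_nonneg M0, fun n G => ?_⟩
  have hA : (G.adjMatrix ℝ).IsHermitian := by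
    ext i j; simp [SimpleGraph.adj_comm]
  have hR : G.adjMatrix ℝ = (G.adjMatrix ℚ).map (algebraMap ℚ ℝ) := by
    ext i j; by_cases h : G.Adj i j <;> simp [h]
  have hC : G.adjMatrix ℂ = (G.adjMatrix ℝ).map (algebraMap ℝ ℂ) := by
    ext i j; by_cases h : G.Adj i j <;> simp [h]
  obtain ⟨m, g, hg, hq⟩ := WfDvdMonoid.max_power_factor (G.adjMatrix ℚ).charpoly_monic.ne_zero
    (minpoly.irreducible hl)
  have e : (G.adjMatrix ℝ).charpoly = f ^ m * g.map (algebraMap ℚ ℝ) := by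
    rw [hR, Matrix.charpoly_map, hq, Polynomial.map_mul, Polynomial.map_pow, hf]
  have q0 := (G.adjMatrix ℝ).charpoly_monic.ne_zero
  have er : (G.adjMatrix ℝ).charpoly.roots = m • f.roots + (g.map (algebraMap ℚ ℝ)).roots := by
    rw [e, Polynomial.roots_mul (e ▸ q0), Polynomial.roots_pow]
  have h1 : mult G l ≤ m := by
    unfold mult
    refine (LinearMap.finrank_eigenspace_le _ _).trans ?_
    rw [Matrix.charpoly_toLin']
    have : (G.adjMatrix ℂ).charpoly = (G.adjMatrix ℝ).charpoly.map (algebraMap ℝ ℂ) := by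
      rw [hC, Matrix.charpoly_map]
    have h2 : (G.adjMatrix ℝ).charpoly.rootMultiplicity l ≤ m := by
      rw [← Polynomial.count_roots, er, Multiset.count_add, Multiset.count_nsmul]
      have c1 : f.roots.count l ≤ 1 := Multiset.nodup_iff_count_le_one.1
        (Polynomial.nodup_roots (hf ▸ (minpoly.irreducible hl).separable.map)) l
      have c2 : (g.map (algebraMap ℚ ℝ)).roots.count l = 0 := by
        refine Multiset.count_eq_zero.2 fun h => hg (minpoly.dvd ℚ l ?_)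
        have := (Polynomial.mem_roots'.1 h).2
        rwa [Polynomial.IsRoot, Polynomial.eval_map_algebraMap] at this
      rw [c2, add_zero]
      exact (Nat.mul_le_mul_left m c1).trans (mul_one m).le
    rw [Polynomial.eq_rootMultiplicity_map (p := (G.adjMatrix ℝ).charpoly)
      (algebraMap ℝ ℂ).injective l, ← this] at h2
    exact h2
  have ee : (G.adjMatrix ℝ).charpoly.roots = univ.val.map hA.eigenvalues := by
    rw [hA.roots_charpoly_eq_eigenvalues]; rfl
  obtain ⟨u, hu, hm⟩ := eu_sub hA.eigenvalues (m • f.roots) univ.val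
    (by rw [← ee, er]; exact Multiset.le_add_right _ _)
  let U : Finset (Fin n) := ⟨u, Multiset.nodup_of_le hu univ.nodup⟩
  have sp : m ≠ 0 → f.Splits := fun h =>
    hA.splits_charpoly.of_dvd q0 (e ▸ (dvd_pow_self f h).mul_right _)
  have hc : U.card = (minpoly ℚ l).natDegree * m := by
    have : U.card = m * f.roots.card := by
      rw [← Multiset.card_nsmul, ← hm, Multiset.card_map]; rfl
    rw [this]
    rcases eq_or_ne m 0 with h | h
    · simp [h]
    · rw [← (sp h).natDegree_eq_card_roots, hf, Polynomial.natDegree_map, mul_comm]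
  have hs : ∑ k ∈ U, hA.eigenvalues k = m * (-((minpoly ℚ l).nextCoeff : ℝ)) := by
    have : ∑ k ∈ U, hA.eigenvalues k = m * f.roots.sum := by
      rw [← nsmul_eq_mul, ← Multiset.sum_nsmul, ← hm]; rfl
    rw [this]
    rcases eq_or_ne m 0 with h | h
    · simp [h]
    · have h3 := (sp h).nextCoeff_eq_neg_sum_roots_of_monic fm
      have h4 : f.nextCoeff = ((minpoly ℚ l).nextCoeff : ℝ) := by
        rw [hf, Polynomial.nextCoeff_map (algebraMap ℚ ℝ).injective]; rfl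
      rw [← h4, h3, neg_neg]
  refine ⟨m, Uᶜ.card, h1, by rw [← hc, Finset.card_add_card_compl, Fintype.card_fin],
    fun α τ h0 hτ => ?_⟩
  have hk := key' hA (fun i j => by by_cases h : G.Adj i j <;> simp [h]) (fun i => by simp)
    Uᶜ (M := (f.roots.map fun x => |x|).sum) (α := α) (Multiset.sum_nonneg M0) (fun k hk => by
      rw [Finset.notMem_compl] at hk
      refine Multiset.single_le_sum M0 _ (Multiset.mem_map_of_mem _ ?_)
      exact Multiset.mem_of_mem_nsmul (hm ▸ Multiset.mem_map_of_mem hA.eigenvalues hk)) h0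
    (by rwa [compl_compl, hs, Fintype.card_fin])
  rwa [Fintype.card_fin] at hk

theorem upper_deg (l : ℝ) (hl : IsIntegral ℚ l) (n : ℕ) :
    (maxMult n l : ℝ) ≤ n / (minpoly ℚ l).natDegree := by
  obtain ⟨M, -, h⟩ := eu_core l hl
  obtain ⟨G, hG⟩ := max_attained n l
  obtain ⟨m, t, h1, h2, -⟩ := h n G
  have d0 : (0 : ℝ) < (minpoly ℚ l).natDegree := Nat.cast_pos.2 (minpoly.natDegree_pos hl)
  rw [hG, le_div_iff₀ d0]
  exact_mod_cast (Nat.mul_le_mul_right _ h1).trans (by rw [mul_comm]; omega)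

theorem trace_upper (l : ℝ) (hl : IsIntegral ℚ l)
    (h : (minpoly ℚ l).nextCoeff < 0 ∨
      ((minpoly ℚ l).natDegree : ℚ) < (minpoly ℚ l).nextCoeff) :
    ∃ c : ℝ, 0 < c ∧ ∀ n : ℕ, (maxMult n l : ℝ) ≤ n / (minpoly ℚ l).natDegree - c * √n := by
  obtain ⟨M, M0, hM⟩ := eu_core l hl
  have d0 : (0 : ℝ) < (minpoly ℚ l).natDegree := Nat.cast_pos.2 (minpoly.natDegree_pos hl)
  have h' : ((minpoly ℚ l).nextCoeff : ℝ) < 0 ∨
      ((minpoly ℚ l).natDegree : ℝ) < ((minpoly ℚ l).nextCoeff : ℝ) := by exact_mod_cast h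
  generalize (minpoly ℚ l).natDegree = d at *
  generalize ((minpoly ℚ l).nextCoeff : ℝ) = b at *
  obtain ⟨α, hα⟩ : ∃ α : ℝ, -b = α * d := ⟨-b / d, by field_simp⟩
  obtain ⟨κ, hκ⟩ : ∃ κ : ℝ, κ = α * (α + 1) := ⟨_, rfl⟩
  have κ0 : 0 < κ := by
    rw [hκ]
    rcases h' with h' | h'
    · have : 0 < α := by
        by_contra hc
        nlinarith [mul_nonneg (neg_nonneg.2 (not_lt.1 hc)) d0.le]
      positivity
    · have : α + 1 < 0 := by
        by_contra hc
        nlinarith [mul_nonneg (not_lt.1 hc) d0.le]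
      exact mul_pos_of_neg_of_neg (by linarith) this
  obtain ⟨K, hK⟩ : ∃ K : ℝ, K = (M + 1) ^ 2 := ⟨_, rfl⟩
  have K1 : 1 ≤ K := by rw [hK]; nlinarith
  obtain ⟨L, hL⟩ : ∃ L : ℝ, L = 2 * (κ + α ^ 2) / κ + 8 * K ^ 2 / κ ^ 2 := ⟨_, rfl⟩
  have L1 : 2 * (κ + α ^ 2) / κ ≤ L := by rw [hL]; exact le_add_of_nonneg_right (by positivity)
  have L2 : 8 * K ^ 2 / κ ^ 2 ≤ L := by rw [hL]; exact le_add_of_nonneg_left (by positivity)
  have L0 : 0 < L := lt_of_lt_of_le (by positivity) L2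
  refine ⟨1 / (d * √L), by positivity, fun n => ?_⟩
  obtain ⟨G, hG⟩ := max_attained n l
  obtain ⟨m, t, h1, h2, h3⟩ := hM n G
  rw [hG]
  refine (Nat.cast_le.2 h1).trans ?_
  have e : (n : ℝ) = d * m + t := by exact_mod_cast h2
  have t0 : (0 : ℝ) ≤ t := Nat.cast_nonneg _
  have tt : (t : ℝ) ≤ t ^ 2 := by exact_mod_cast Nat.le_self_pow two_ne_zero t
  have key : (n : ℝ) ≤ L * t ^ 2 := by
    rcases le_or_gt (κ * n) (2 * (κ + α ^ 2) * t) with hc | hc
    · calc (n : ℝ) ≤ 2 * (κ + α ^ 2) / κ * t := by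
            rw [div_mul_eq_mul_div, le_div_iff₀ κ0]; linarith
        _ ≤ L * t ^ 2 := mul_le_mul L1 tt t0 L0.le
    have n0 : (0 : ℝ) < n :=
      (mul_pos_iff_of_pos_left κ0).1 (lt_of_le_of_lt (by positivity) hc)
    have h4 := h3 α (κ * n / 2) (by positivity) (by
      have : (2 * α + 1) * (m * -b) - α ^ 2 * n = κ * n - (κ + α ^ 2) * t := by
        rw [hα, hκ, e]; ring
      rw [this]; linarith)
    have h5 : M ^ 2 ≤ K := by rw [hK]; nlinarith
    rw [← hK] at h4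
    have h6 : ((t : ℝ) ^ 2 + t) * (K * (n * M ^ 2)) ≤ (t ^ 2 + t ^ 2) * (K * (n * K)) := by gcongr
    have h7 : κ ^ 2 * n ≤ 8 * K ^ 2 * t ^ 2 := by
      refine le_of_mul_le_mul_left ?_ n0
      nlinarith
    calc (n : ℝ) ≤ 8 * K ^ 2 / κ ^ 2 * t ^ 2 := by
          rw [div_mul_eq_mul_div, le_div_iff₀ (by positivity)]; linarith
      _ ≤ L * t ^ 2 := by gcongr
  have h7 : √(n : ℝ) ≤ √L * t := by
    rw [← Real.sqrt_sq t0, ← Real.sqrt_mul L0.le]
    exact Real.sqrt_le_sqrt key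
  have sL : 0 < √L := Real.sqrt_pos.2 L0
  have h8 := mul_le_mul_of_nonneg_left h7 (show 0 ≤ 1 / (d * √L) by positivity)
  have h9 : 1 / (d * √L) * (√L * t) = t / d := by field_simp
  have h10 : (n : ℝ) / d = m + t / d := by rw [e]; field_simp
  linarith

end Pool.Agent.P.MP_4bb7d7_co
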