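import Pool.Agent.P.MP_4bb7d7_co.LgLin

namespace Pool.Agent.P.MP_4bb7d7_co

open Matrix Finset Polynomial Kronecker

theorem span_zero {n S : Type} [Fintype n] [Fintype S] {u : n → n → ℝ} {p : n → Prop}
    {a : S → n} (ha : ∀ r : n → ℝ, ∃ c : S → ℝ, ∀ e, p e → ∑ i, c i * u (a i) e = r e)
    (r : n → ℝ) (hr : ∀ e, ¬p e → r e = 0) (h : ∀ i, ∑ e, r e * u (a i) e = 0) : r = 0 := by
  obtain ⟨c, hc⟩ := ha r
  have h1 : ∑ e, r e * r e = ∑ e, r e * ∑ i, c i * u (a i) e :=
    Finset.sum_congr rfl fun e _ => by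
      by_cases he : p e
      · rw [hc e he]
      · rw [hr e he, zero_mul, zero_mul]
  have h2 : ∑ e, r e * ∑ i, c i * u (a i) e = ∑ i, c i * ∑ e, r e * u (a i) e := by
    simp only [Finset.mul_sum]
    rw [Finset.sum_comm]
    exact Finset.sum_congr rfl fun i _ => Finset.sum_congr rfl fun e _ => by ring
  simp only [h2, h, mul_zero, Finset.sum_const_zero] at h1
  funext e
  exact mul_self_eq_zero.1 ((Finset.sum_eq_zero_iff_of_nonneg
    fun e _ => mul_self_nonneg (r e)).1 h1 e (mem_univ e))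

theorem ker_conj {n S : Type} [Fintype n] [DecidableEq n] [Fintype S] (A : Matrix n n ℚ)
    {u : n → n → ℝ} {μ : n → ℝ}
    (h1 : ∀ i j, A.map (algebraMap ℚ ℝ) i j = ∑ k, μ k * (u i k * u j k))
    (h2 : ∀ i j, ∑ k, u i k * u j k = if i = j then 1 else 0)
    (h3 : ∀ k l, ∑ i, u i k * u i l = if k = l then 1 else 0) {x y : ℝ}
    (hc : ∀ q : ℚ[X], aeval y q = 0 → aeval x q = 0) {a : S → n}
    (ha : ∀ r : n → ℝ, ∃ c : S → ℝ, ∀ e, μ e = x → ∑ i, c i * u (a i) e = r e)
    (r : n → ℝ) (hr : ∀ e, μ e ≠ y → r e = 0) (h : ∀ i, ∑ e, r e * u (a i) e = 0) : r = 0 := by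
  let U : Matrix n n ℝ := Matrix.of u
  have U1 : U * Uᵀ = 1 := by ext i j; simp [U, Matrix.mul_apply, h2, Matrix.one_apply]
  have U2 : Uᵀ * U = 1 := by ext i j; simp [U, Matrix.mul_apply, h3, Matrix.one_apply]
  have hA : A.map (algebraMap ℚ ℝ) = U * diagonal μ * Uᵀ := by
    ext i j
    rw [h1, Matrix.mul_apply]
    exact Finset.sum_congr rfl fun k _ => by simp [U]; ring
  have e1 : ∀ (r : n → ℝ) j, (U *ᵥ r) j = ∑ e, r e * u j e := fun r j => by
    simp [U, Matrix.mulVec, dotProduct, mul_comm]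
  obtain ⟨g, hg⟩ := ker_iff A a
  by_contra hr0
  have hy : aeval y g = 0 := by
    refine (hg y).2 ⟨U *ᵥ r, fun h0 => hr0 ?_, ?_, fun i => (e1 _ _).trans (h i)⟩
    · rw [← Matrix.one_mulVec r, ← U2, ← Matrix.mulVec_mulVec, h0, Matrix.mulVec_zero]
    · have : diagonal μ *ᵥ r = y • r := by
        funext e
        rw [Matrix.mulVec_diagonal]
        by_cases he : μ e = y
        · simp [he]
        · simp [hr e he]
      rw [hA, Matrix.mulVec_mulVec, Matrix.mul_assoc, U2, Matrix.mul_one, ← Matrix.mulVec_mulVec,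
        this, Matrix.mulVec_smul]
  obtain ⟨v, v0, v1, v2⟩ := (hg x).1 (hc g hy)
  have e2 : U *ᵥ (Uᵀ *ᵥ v) = v := by rw [Matrix.mulVec_mulVec, U1, Matrix.one_mulVec]
  have e3 : diagonal μ *ᵥ (Uᵀ *ᵥ v) = x • (Uᵀ *ᵥ v) := by
    rw [← Matrix.mulVec_smul, ← v1, hA, Matrix.mulVec_mulVec, Matrix.mulVec_mulVec,
      ← Matrix.mul_assoc, ← Matrix.mul_assoc, U2, Matrix.one_mul]
  have e4 := span_zero (p := fun e => μ e = x) ha (Uᵀ *ᵥ v) (fun e he => by
    have := congrFun e3 e
    rw [Matrix.mulVec_diagonal, Pi.smul_apply, smul_eq_mul] at this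
    exact (mul_eq_mul_right_iff.1 this).resolve_left he) fun i => by rw [← e1, e2, v2]
  exact v0 (by rw [← e2, e4, Matrix.mulVec_zero])

theorem eig_bound {n : ℕ} (G : SimpleGraph (Fin n)) [DecidableRel G.Adj]
    (hA : (G.adjMatrix ℝ).IsHermitian) (e : Fin n) : |hA.eigenvalues e| ≤ n := by
  obtain ⟨u, h1, -, h3⟩ := spec_entries hA
  have h4 := frob h3 hA.eigenvalues
  simp only [← h1] at h4
  have h5 : ∑ i, ∑ j, G.adjMatrix ℝ i j ^ 2 ≤ ∑ _i : Fin n, ∑ _j : Fin n, (1 : ℝ) :=
    Finset.sum_le_sum fun i _ => Finset.sum_le_sum fun j _ => by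
      by_cases h : G.Adj i j <;> simp [h]
  have h6 := Finset.single_le_sum (f := fun k => hA.eigenvalues k ^ 2)
    (fun k _ => sq_nonneg _) (mem_univ e)
  refine abs_le_of_sq_le_sq' ?_ n.cast_nonneg |> abs_le.2
  simp only [Finset.sum_const, Finset.card_univ, Fintype.card_fin, nsmul_eq_mul, mul_one] at h5
  nlinarith

theorem core {κ : Type} [Fintype κ] [DecidableEq κ] (lam : κ → ℝ) (s0 : κ)
    (hc : ∀ s s' (q : ℚ[X]), aeval (lam s) q = 0 → aeval (lam s') q = 0)
    (P : ℤ[X]) (hP : ∀ x : ℝ, aeval x P = 0 ↔ ∃ s, x = lam s)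
    (q : κ → ℤ[X]) (M : Matrix κ κ ℝ) (hM : ∀ k s, M k s = aeval (lam s) (q k)) (h0 : M.det ≠ 0)
    {n : ℕ} (G : SimpleGraph (Fin n)) {w : ℝ} (hw0 : 0 < w)
    (hw : ∀ x : ℝ, |x| ≤ n → |aeval x P| ≤ w) :
    ∃ m t : ℕ, mult G (lam s0) ≤ m ∧ n = Fintype.card κ * m + t ∧
      1 ≤ (M.det ^ 2 / (Fintype.card κ : ℝ) ^ Fintype.card κ) ^ m * (w ^ 2) ^ t := by
  classical
  have hA : (G.adjMatrix ℝ).IsHermitian := by
    ext i j; simp [SimpleGraph.adj_comm]
  have hR : G.adjMatrix ℝ = (G.adjMatrix ℚ).map (algebraMap ℚ ℝ) := by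
    ext i j; by_cases h : G.Adj i j <;> simp [h]
  have hC : G.adjMatrix ℂ = (G.adjMatrix ℝ).map (algebraMap ℝ ℂ) := by
    ext i j; by_cases h : G.Adj i j <;> simp [h]
  have inj : Function.Injective lam := fun s s' h => by
    by_contra hne
    exact h0 (Matrix.det_zero_of_column_eq hne fun k => by rw [hM, hM, h])
  let S : κ → Finset (Fin n) := fun s => univ.filter fun e => hA.eigenvalues e = lam s
  have m1 : mult G (lam s0) ≤ (S s0).card := by
    unfold mult
    refine (LinearMap.finrank_eigenspace_le _ _).trans ?_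
    rw [Matrix.charpoly_toLin', ← count_eq hA]
    have : (G.adjMatrix ℂ).charpoly = (G.adjMatrix ℝ).charpoly.map (algebraMap ℝ ℂ) := by
      rw [hC, Matrix.charpoly_map]
    rw [Polynomial.eq_rootMultiplicity_map (p := (G.adjMatrix ℝ).charpoly)
      (algebraMap ℝ ℂ).injective (lam s0), ← this]
    exact le_rfl
  have m2 : ∀ s s', (S s).card ≤ (S s').card := by
    intro s s'
    rw [← count_eq hA, ← count_eq hA, hR, Matrix.charpoly_map]
    have hq' := Polynomial.map_ne_zero (f := algebraMap ℚ ℝ) (G.adjMatrix ℚ).charpoly_monic.ne_zero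
    refine le_of_forall_lt fun k hk => ?_
    rw [Polynomial.lt_rootMultiplicity_iff_isRoot_iterate_derivative hq'] at hk ⊢
    intro m hm
    have := hk m hm
    rw [Polynomial.iterate_derivative_map, Polynomial.IsRoot, Polynomial.eval_map_algebraMap]
      at this ⊢
    exact hc _ _ _ this
  have hμ := eig_bound G hA
  obtain ⟨u, h1, h2, h3⟩ := spec_entries hA
  set μ := hA.eigenvalues
  obtain ⟨a, ha⟩ := pick h3 fun e => μ e = lam s0
  obtain ⟨b, hb⟩ := pick h3 fun e => ¬aeval (μ e) P = 0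
  have cS : Fintype.card {e // μ e = lam s0} = (S s0).card := Fintype.card_subtype _
  have cn : n = Fintype.card κ * (S s0).card + Fintype.card {e // ¬aeval (μ e) P = 0} := by
    have e1 : (univ.filter fun e => aeval (μ e) P = 0) = univ.biUnion S := by
      ext e; simp [hP, S, μ]
    have e2 : (univ.biUnion S).card = Fintype.card κ * (S s0).card := by
      rw [Finset.card_biUnion, Finset.sum_congr rfl fun s _ => (m2 s s0).antisymm (m2 s0 s)]
      · simp
      · intro s _ s' _ hne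
        refine Finset.disjoint_left.2 fun e he he' => hne (inj ?_)
        exact (Finset.mem_filter.1 he).2.symm.trans (Finset.mem_filter.1 he').2
    rw [← e2, ← e1, Fintype.card_subtype, Finset.card_filter_add_card_filter_not]
    simp
  refine ⟨_, _, m1, cn, ?_⟩
  obtain ⟨ε⟩ : Nonempty (Fin n ≃ (κ × {e // μ e = lam s0}) ⊕ {e // ¬aeval (μ e) P = 0}) :=
    Fintype.card_eq.1 (by rw [Fintype.card_sum, Fintype.card_prod, cS, Fintype.card_fin]; exact cn)
  choose c hcb using fun k : κ × {e // μ e = lam s0} =>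
    hb fun e => w * (aeval (μ e) (q k.1) * u (a k.2) e) / aeval (μ e) P
  have d0 : (0 : ℝ) < Fintype.card κ := Nat.cast_pos.2 (Fintype.card_pos_iff.2 ⟨s0⟩)
  obtain ⟨δ, δ0, hδ⟩ : ∃ δ : ℝ, 0 < δ ∧ δ ^ 2 = Fintype.card κ :=
    ⟨√_, Real.sqrt_pos.2 d0, Real.sq_sqrt d0.le⟩
  let U : Matrix (Fin n) (Fin n) ℝ := Matrix.of u
  let X : Matrix (Fin n) ((κ × {e // μ e = lam s0}) ⊕ {e // ¬aeval (μ e) P = 0}) ℤ :=
    Matrix.of fun j => Sum.elim (fun k => aeval (G.adjMatrix ℤ) (q k.1) j (a k.2))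
      fun l => aeval (G.adjMatrix ℤ) P j (b l)
  let Y : Matrix (Fin n) ((κ × {e // μ e = lam s0}) ⊕ {e // ¬aeval (μ e) P = 0}) ℝ :=
    Matrix.of fun e => Sum.elim (fun k => if μ e = lam k.1 then δ * u (a k.2) e else 0)
      fun l => aeval (μ e) P * u (b l) e / w
  let Z := Matrix.fromBlocks ((δ⁻¹ • Mᵀ) ⊗ₖ (1 : Matrix {e // μ e = lam s0} {e // μ e = lam s0} ℝ))
    0 (Matrix.of fun l k => c k l)
    (w • (1 : Matrix {e // ¬aeval (μ e) P = 0} {e // ¬aeval (μ e) P = 0} ℝ))
  have hZ : Z.det ^ 2 = (M.det ^ 2 / (Fintype.card κ : ℝ) ^ Fintype.card κ) ^ (S s0).card *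
      (w ^ 2) ^ Fintype.card {e // ¬aeval (μ e) P = 0} := by
    rw [Matrix.det_fromBlocks_zero₁₂, Matrix.det_kronecker, Matrix.det_smul, Matrix.det_smul,
      Matrix.det_transpose, Matrix.det_one, Matrix.det_one, cS, ← hδ]
    rw [one_pow, mul_one, mul_one, mul_pow, ← pow_mul, ← pow_mul, mul_comm _ 2, mul_comm _ 2,
      pow_mul, pow_mul]
    congr 2
    rw [inv_pow, ← pow_mul, mul_comm 2, pow_mul]
    field_simp
  have hZ0 : Z.det ≠ 0 := by
    intro h
    rw [h] at hZ
    refine absurd hZ (ne_of_lt ?_)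
    rw [zero_pow two_ne_zero]
    positivity
  have hint : ∀ i j, ((G.adjMatrix ℤ i j : ℤ) : ℝ) = ∑ k, μ k * (u i k * u j k) := fun i j => by
    rw [← h1]; by_cases h : G.Adj i j <;> simp [h]
  have hYZ : ∀ e, (∀ k, (Y * Z) e (.inl k) = aeval (μ e) (q k.1) * u (a k.2) e) ∧
      ∀ l, (Y * Z) e (.inr l) = aeval (μ e) P * u (b l) e := fun e => by
    constructor
    · rintro ⟨k, i⟩
      simp only [Matrix.mul_apply, Fintype.sum_sum_type, Fintype.sum_prod_type, Y, Z,
        Matrix.of_apply, Sum.elim_inl, Sum.elim_inr, fromBlocks_apply₁₁, fromBlocks_apply₂₁,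
        Matrix.kroneckerMap_apply, Matrix.one_apply, mul_ite, mul_one, mul_zero,
        Finset.sum_ite_eq', Finset.mem_univ, if_true, Matrix.smul_apply, Matrix.transpose_apply,
        smul_eq_mul]
      by_cases he : aeval (μ e) P = 0
      · obtain ⟨s, hs⟩ := (hP _).1 he
        simp only [he, zero_mul, zero_div, Finset.sum_const_zero, add_zero]
        simp only [hs, inj.eq_iff, ite_mul, zero_mul, Finset.sum_ite_eq, Finset.mem_univ, if_true,
          hM]
        field_simp
      · have hn : ∀ s, ¬μ e = lam s := fun s hs => he ((hP _).2 ⟨s, hs⟩)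
        have := hcb (k, i) e he
        simp only [hn, if_false, zero_mul, Finset.sum_const_zero, zero_add]
        rw [Finset.sum_congr rfl fun l _ => (by ring : aeval (μ e) P * u (b l) e / w * c (k, i) l =
          aeval (μ e) P / w * (c (k, i) l * u (b l) e)), ← Finset.mul_sum, this]
        field_simp
    · intro l
      simp only [Matrix.mul_apply, Fintype.sum_sum_type, Y, Z,
        Matrix.of_apply, Sum.elim_inl, Sum.elim_inr, fromBlocks_apply₁₂, fromBlocks_apply₂₂,
        Matrix.one_apply, mul_ite, mul_one, mul_zero, Matrix.zero_apply, Finset.sum_const_zero,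
        Finset.sum_ite_eq', Finset.mem_univ, if_true, Matrix.smul_apply, smul_eq_mul, zero_add]
      field_simp
  have hX : (X.submatrix id ε).map (Int.castRingHom ℝ) =
      U * (Y.submatrix id ε * Z.submatrix ε ε) := by
    rw [Matrix.submatrix_mul_equiv]
    ext j l
    rw [Matrix.mul_apply]
    simp only [Matrix.map_apply, Matrix.submatrix_apply, id, U, Matrix.of_apply, eq_intCast]
    rcases ε l with k | l
    · simp only [(hYZ _).1, X, Matrix.of_apply, Sum.elim_inl, aeval_spec hint h2 h3]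
      exact Finset.sum_congr rfl fun e _ => by ring
    · simp only [(hYZ _).2, X, Matrix.of_apply, Sum.elim_inr, aeval_spec hint h2 h3]
      exact Finset.sum_congr rfl fun e _ => by ring
  have hU : U.det ^ 2 = 1 := by
    have : U * Uᵀ = 1 := by ext i j; simp [U, Matrix.mul_apply, h2, Matrix.one_apply]
    have := congrArg Matrix.det this
    rwa [Matrix.det_mul, Matrix.det_transpose, Matrix.det_one, ← sq] at this
  have hY0 : (Y.submatrix id ε).det ≠ 0 := by
    rw [Ne, ← Matrix.exists_vecMul_eq_zero_iff]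
    rintro ⟨r, r0, hr⟩
    have hr' : ∀ l, ∑ e, r e * Y e l = 0 := fun l => by
      simpa [Matrix.vecMul, dotProduct] using congrFun hr (ε.symm l)
    refine r0 (funext fun e => ?_)
    by_cases he : aeval (μ e) P = 0
    · obtain ⟨s, hs⟩ := (hP _).1 he
      have := ker_conj (G.adjMatrix ℚ) (hR ▸ h1) h2 h3 (hc s s0) ha
        (fun e => if μ e = lam s then r e else 0) (fun e he => if_neg he) fun i => by
          have := hr' (.inl (s, i))
          simp only [Y, Matrix.of_apply, Sum.elim_inl] at this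
          refine mul_left_cancel₀ δ0.ne' ?_
          rw [mul_zero, Finset.mul_sum]
          exact (Finset.sum_congr rfl fun e _ => by split_ifs <;> ring).trans this
      simpa [hs] using congrFun this e
    · have := span_zero hb (fun e => r e * aeval (μ e) P) (fun e he => by
        rw [not_not.1 he, mul_zero]) fun l => by
          have := hr' (.inr l)
          simp only [Y, Matrix.of_apply, Sum.elim_inr] at this
          refine mul_left_cancel₀ (inv_ne_zero hw0.ne') ?_
          rw [mul_zero, Finset.mul_sum]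
          exact (Finset.sum_congr rfl fun e _ => by ring).trans this
      exact (mul_eq_zero.1 (congrFun this e)).resolve_right he
  have hY1 : (Y.submatrix id ε).det ^ 2 ≤ 1 := by
    refine det_sq_le_one _ ?_
    simp only [Matrix.submatrix_apply, id]
    rw [ε.sum_comp fun l => ∑ e, Y e l ^ 2, Fintype.sum_sum_type, Fintype.sum_prod_type_right]
    have n1 : ∀ j, ∑ e, u j e ^ 2 = 1 := fun j => by simpa [sq] using h2 j j
    have b1 : ∀ i, ∑ s, ∑ e, Y e (.inl (s, i)) ^ 2 ≤ Fintype.card κ := fun i => by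
      rw [Finset.sum_comm, ← hδ, ← mul_one (δ ^ 2), ← n1 (a i), Finset.mul_sum]
      refine Finset.sum_le_sum fun e _ => ?_
      simp only [Y, Matrix.of_apply, Sum.elim_inl]
      by_cases he : ∃ s, μ e = lam s
      · obtain ⟨s, hs⟩ := he
        simp [hs, inj.eq_iff, mul_pow]
      · have hn : ∀ s, ¬μ e = lam s := fun s hs => he ⟨s, hs⟩
        simp only [hn, if_false]
        simp only [ne_eq, OfNat.ofNat_ne_zero, not_false_eq_true, zero_pow, Finset.sum_const_zero]
        positivity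
    have b2 : ∀ l, ∑ e, Y e (.inr l) ^ 2 ≤ 1 := fun l => by
      rw [← n1 (b l)]
      refine Finset.sum_le_sum fun e _ => ?_
      simp only [Y, Matrix.of_apply, Sum.elim_inr]
      rw [div_pow, mul_pow, div_le_iff₀ (by positivity), mul_comm]
      exact mul_le_mul_of_nonneg_left (sq_le_sq' (abs_le.1 (hw _ (hμ e))).1
        (abs_le.1 (hw _ (hμ e))).2) (sq_nonneg _)
    refine (add_le_add (Finset.sum_le_sum fun i _ => b1 i)
      (Finset.sum_le_sum fun l _ => b2 l)).trans ?_
    simp only [Finset.sum_const, Finset.card_univ, nsmul_eq_mul, mul_one, Fintype.card_fin, cS]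
    rw [mul_comm]
    exact_mod_cast cn.ge
  have hd : ((X.submatrix id ε).det : ℝ) = U.det * ((Y.submatrix id ε).det * Z.det) := by
    rw [← Matrix.det_submatrix_equiv_self ε Z, ← Matrix.det_mul, ← Matrix.det_mul, ← hX]
    exact (Int.castRingHom ℝ).map_det _
  have hX0 : (X.submatrix id ε).det ≠ 0 := by
    intro h
    rw [h, Int.cast_zero] at hd
    refine mul_ne_zero (fun h => ?_) (mul_ne_zero hY0 hZ0) hd.symm
    rw [h] at hU
    norm_num at hU
  have hX1 : (1 : ℝ) ≤ ((X.submatrix id ε).det : ℝ) ^ 2 := by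
    exact_mod_cast (one_le_sq_iff_one_le_abs _).2 (Int.one_le_abs hX0)
  rw [hd, mul_pow, mul_pow, hU, one_mul] at hX1
  rw [← hZ]
  nlinarith [sq_nonneg Z.det]

end Pool.Agent.P.MP_4bb7d7_co
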