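import Pool.Agent.P.MP_4bb7d7_co.LgCore

namespace Pool.Agent.P.MP_4bb7d7_co

open Matrix Finset Polynomial Kronecker ComplexConjugate ZMod

/-- nonzero residues -/
abbrev Nz (p : ℕ) := {a : ZMod p // a ≠ 0}

/-- the Fourier matrix on nonzero residues -/
noncomputable def Fm (p : ℕ) [NeZero p] : Matrix (Nz p) (Nz p) ℂ :=
  Matrix.of fun k s => stdAddChar (k.1 * s.1)

theorem card_Nz (p : ℕ) [NeZero p] : Fintype.card (Nz p) = p - 1 := by
  simp [Nz, Fintype.card_subtype_compl]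

theorem Fm_det (r : ℕ) : ‖(Fm (r + 2)).det‖ ^ 2 = (r + 2 : ℝ) ^ r := by
  have p0 : (r + 2 : ℂ) ≠ 0 := by exact_mod_cast (by omega : r + 2 ≠ 0)
  have h1 : Fm (r + 2) * (Fm (r + 2))ᴴ = (r + 2 : ℂ) • (1 + replicateCol Unit
      (fun _ : Nz (r + 2) => -(r + 2 : ℂ)⁻¹) * replicateRow Unit fun _ : Nz (r + 2) => (1 : ℂ)) := by
    ext k l
    have h := AddChar.sum_mulShift (k.1 - l.1) (isPrimitive_stdAddChar (r + 2))
    rw [Fintype.sum_eq_add_sum_subtype_ne _ 0, zero_mul, AddChar.map_zero_eq_one] at h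
    have e : (Fm (r + 2) * (Fm (r + 2))ᴴ) k l =
        ∑ s : Nz (r + 2), stdAddChar (s.1 * (k.1 - l.1)) := by
      rw [Matrix.mul_apply]
      refine Finset.sum_congr rfl fun s _ => ?_
      rw [Matrix.conjTranspose_apply, Fm, Matrix.of_apply, Matrix.of_apply, ← starRingEnd_apply,
        ← AddChar.map_neg_eq_conj, ← AddChar.map_add_eq_mul]
      congr 1; ring
    rw [e, eq_sub_of_add_eq' h]
    simp only [Matrix.smul_apply, Matrix.add_apply, Matrix.one_apply, Matrix.mul_apply,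
      replicateCol_apply, replicateRow_apply, sub_eq_zero, Subtype.val_inj, ZMod.card]
    split_ifs <;> simp <;> field_simp
    ring
  have h2 := congrArg Matrix.det h1
  rw [Matrix.det_mul, Matrix.det_conjTranspose, Matrix.det_smul,
    Matrix.det_one_add_replicateCol_mul_replicateRow, card_Nz, ← starRingEnd_apply,
    Complex.mul_conj, Complex.normSq_eq_norm_sq] at h2
  have h3 : (1 + (fun _ : Nz (r + 2) => (1 : ℂ)) ⬝ᵥ fun _ => -(r + 2 : ℂ)⁻¹) = (r + 2 : ℂ)⁻¹ := by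
    simp only [dotProduct, Finset.sum_const, Finset.card_univ, card_Nz, one_mul, nsmul_eq_mul]
    rw [show r + 2 - 1 = r + 1 from rfl]
    push_cast
    field_simp
    ring
  rw [h3, show r + 2 - 1 = r + 1 from rfl, pow_succ _ r, mul_assoc, mul_inv_cancel₀ p0,
    mul_one] at h2
  exact_mod_cast h2

/-- the index set -/
abbrev Ix := Nz 5 × Nz 7 × Nz 11 × Nz 13

theorem card_Ix : Fintype.card Ix = 2880 := by
  simp only [Fintype.card_prod, card_Nz]

/-- the full Fourier matrix -/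
noncomputable def FF : Matrix Ix Ix ℂ := Fm 5 ⊗ₖ (Fm 7 ⊗ₖ (Fm 11 ⊗ₖ Fm 13))

theorem FF_det : ‖FF.det‖ ^ 2 = ((5 : ℝ) ^ 45 * 7 ^ 50 * 11 ^ 54 * 13 ^ 55) ^ 48 := by
  have h5 : ‖(Fm 5).det‖ ^ 2 = 5 ^ 3 := by convert Fm_det 3 using 2; norm_num
  have h7 : ‖(Fm 7).det‖ ^ 2 = 7 ^ 5 := by convert Fm_det 5 using 2; norm_num
  have h11 : ‖(Fm 11).det‖ ^ 2 = 11 ^ 9 := by convert Fm_det 9 using 2; norm_num
  have h13 : ‖(Fm 13).det‖ ^ 2 = 13 ^ 11 := by convert Fm_det 11 using 2; norm_num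
  have k1 : ∀ a b c d : ℝ, (a ^ 720 * (b ^ 120 * (c ^ 12 * d ^ 10) ^ 6) ^ 4) ^ 2 =
      (a ^ 2) ^ 720 * (b ^ 2) ^ 480 * (c ^ 2) ^ 288 * (d ^ 2) ^ 240 := by intros; ring
  have k2 : ∀ a b c d : ℝ, (a ^ 3) ^ 720 * (b ^ 5) ^ 480 * (c ^ 9) ^ 288 * (d ^ 11) ^ 240 =
      (a ^ 45 * b ^ 50 * c ^ 54 * d ^ 55) ^ 48 := by intros; ring
  rw [← k2, ← h5, ← h7, ← h11, ← h13, ← k1, FF, Matrix.det_kronecker, Matrix.det_kronecker,
    Matrix.det_kronecker]
  simp only [Fintype.card_prod, card_Nz, norm_mul, norm_pow]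

/-- negation of indices -/
def ng (k : Ix) : Ix := (⟨-k.1.1, neg_ne_zero.2 k.1.2⟩, ⟨-k.2.1.1, neg_ne_zero.2 k.2.1.2⟩,
  ⟨-k.2.2.1.1, neg_ne_zero.2 k.2.2.1.2⟩, ⟨-k.2.2.2.1, neg_ne_zero.2 k.2.2.2.2⟩)

theorem ng_ng (k : Ix) : ng (ng k) = k := by simp [ng]

theorem FF_ng (k s : Ix) : FF (ng k) s = conj (FF k s) := by
  simp [FF, Fm, ng, AddChar.map_neg_eq_conj]

/-- a primitive cube root of unity -/
noncomputable def om : ℂ := stdAddChar (1 : ZMod 3)

theorem ord_psi {p : ℕ} [Fact p.Prime] {a : ZMod p} (ha : a ≠ 0) :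
    orderOf (stdAddChar a : ℂ) = p := by
  refine orderOf_eq_prime ?_ fun h => ha (injective_stdAddChar ?_)
  · rw [← AddChar.map_nsmul_eq_pow]; simp
  · rw [h, AddChar.map_zero_eq_one]

theorem psi_conj {p : ℕ} [NeZero p] (a : ZMod p) : stdAddChar a * conj (stdAddChar a) = 1 := by
  rw [← AddChar.map_neg_eq_conj, ← AddChar.map_add_eq_mul]; simp

theorem om_sq : (om ^ 2 - conj om ^ 2) ^ 2 = -3 := by
  have h1 : om ^ 3 = 1 := by rw [om, ← AddChar.map_nsmul_eq_pow]; exact AddChar.map_zero_eq_one _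
  have h2 : om ≠ 1 := fun h => by
    have := ord_psi (p := 3) (a := 1) one_ne_zero
    rw [← om, h, orderOf_one] at this
    omega
  have h3 : om ^ 2 + om + 1 = 0 :=
    mul_left_cancel₀ (sub_ne_zero.2 h2) (by linear_combination h1)
  have h4 : conj om = om ^ 2 := by
    have : om * conj om = 1 := psi_conj _
    linear_combination om ^ 2 * this - conj om * h1
  rw [h4]
  linear_combination (om ^ 5 - 2 * om ^ 3 + om ^ 2 + om - 2) * h1 + h3

/-- the permutation matrix of negation -/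
def JJ : Matrix Ix Ix ℂ := Matrix.of fun k l => if l = ng k then 1 else 0

theorem JJ_mul (B : Matrix Ix Ix ℂ) (k s : Ix) : (JJ * B) k s = B (ng k) s := by
  simp [JJ, Matrix.mul_apply]

theorem HH_det : (om • (1 : Matrix Ix Ix ℂ) + conj om • JJ).det ^ 2 = 3 ^ 1440 := by
  have hJ : JJ * JJ = 1 := by
    ext k s
    rw [JJ_mul]
    simp [JJ, ng_ng, Matrix.one_apply, eq_comm]
  have h1 : (om • (1 : Matrix Ix Ix ℂ) + conj om • JJ) * (om • (1 : Matrix Ix Ix ℂ) - conj om • JJ)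
      = (om ^ 2 - conj om ^ 2) • (1 : Matrix Ix Ix ℂ) := by
    simp only [add_mul, mul_sub, smul_mul_smul_comm, hJ, one_mul, mul_one]
    module
  let sg : Ix → ℂ := fun k => if k.1.1.val < 3 then 1 else -1
  have s1 : ∀ k, sg (ng k) = -sg k := by
    rintro ⟨⟨a, ha⟩, k⟩
    have : ∀ a : ZMod 5, a ≠ 0 → ((-a).val < 3 ↔ ¬a.val < 3) := by decide
    simp only [sg, ng, this a ha]
    split_ifs <;> simp_all
  have s0 : (diagonal sg).det ≠ 0 := by
    rw [Matrix.det_diagonal, Finset.prod_ne_zero_iff]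
    intro k _
    simp only [sg]
    split_ifs <;> simp
  have h2 : diagonal sg * (om • (1 : Matrix Ix Ix ℂ) + conj om • JJ) =
      (om • (1 : Matrix Ix Ix ℂ) - conj om • JJ) * diagonal sg := by
    ext k l
    simp only [Matrix.diagonal_mul, Matrix.mul_diagonal, Matrix.add_apply, Matrix.sub_apply,
      Matrix.smul_apply, Matrix.one_apply, JJ, Matrix.of_apply, smul_eq_mul]
    by_cases h : k = l
    · subst h
      by_cases h' : k = ng k
      · have := s1 k
        rw [← h'] at this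
        have h0 : sg k = 0 := by linear_combination this / 2
        rw [h0]; ring
      · simp only [h', if_true, if_false]; ring
    · by_cases h' : l = ng k
      · simp only [h, if_false]
        simp only [h', if_true, s1]; ring
      · simp [h, h']
  have h3 := congrArg Matrix.det h2
  rw [Matrix.det_mul, Matrix.det_mul, mul_comm] at h3
  have h4 := congrArg Matrix.det h1
  rw [Matrix.det_mul, ← mul_right_cancel₀ s0 h3, Matrix.det_smul, Matrix.det_one, mul_one, card_Ix,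
    show 2880 = 2 * 1440 from rfl, pow_mul, om_sq, Even.neg_pow (by decide)] at h4
  rw [sq, h4]

/-- the primitive roots of unity -/
noncomputable def zz (s : Ix) : ℂ := om * (stdAddChar s.1.1 * (stdAddChar s.2.1.1 *
  (stdAddChar s.2.2.1.1 * stdAddChar s.2.2.2.1)))

theorem zz_prim (s : Ix) : IsPrimitiveRoot (zz s) 15015 := by
  have : Fact (Nat.Prime 5) := ⟨by norm_num⟩
  have : Fact (Nat.Prime 7) := ⟨by norm_num⟩
  have : Fact (Nat.Prime 11) := ⟨by norm_num⟩
  have : Fact (Nat.Prime 13) := ⟨by norm_num⟩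
  have mu : ∀ {x y : ℂ} {a b : ℕ}, orderOf x = a → orderOf y = b → a.Coprime b →
      orderOf (x * y) = a * b := by
    rintro x y _ _ rfl rfl h
    exact (Commute.all x y).orderOf_mul_eq_mul_orderOf_of_coprime h
  have h : orderOf (zz s) = 3 * (5 * (7 * (11 * 13))) :=
    mu (ord_psi one_ne_zero) (mu (ord_psi s.1.2) (mu (ord_psi s.2.1.2)
      (mu (ord_psi s.2.2.1.2) (ord_psi s.2.2.2.2) (by norm_num)) (by norm_num)) (by norm_num))
      (by norm_num)
  have := IsPrimitiveRoot.orderOf (zz s)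
  rwa [h] at this

theorem zz_conj (s : Ix) : zz s * conj (zz s) = 1 := by
  rw [Complex.mul_conj, Complex.normSq_eq_norm_sq, (zz_prim s).norm'_eq_one (by norm_num)]
  simp

theorem zz_conj' (s : Ix) : conj (zz s) = zz s ^ 15014 := by
  linear_combination zz s ^ 15014 * zz_conj s - conj (zz s) * (zz_prim s).pow_eq_one

/-- exponents -/
def ex (k : Ix) : ℕ :=
  5005 + 6006 * k.1.1.val + 10725 * k.2.1.1.val + 1365 * k.2.2.1.1.val + 6930 * k.2.2.2.1.val

theorem ex_cast (p : ℕ) (k : Ix) : (ex k : ZMod p) = (5005 : ℕ) + (6006 : ℕ) * k.1.1.val +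
    (10725 : ℕ) * k.2.1.1.val + (1365 : ℕ) * k.2.2.1.1.val + (6930 : ℕ) * k.2.2.2.1.val := by
  simp only [ex, Nat.cast_add, Nat.cast_mul]

theorem zz_pow (k s : Ix) : zz s ^ ex k = om * FF k s := by
  have e3 : (ex k : ZMod 3) = 1 := by
    rw [ex_cast, show ((5005 : ℕ) : ZMod 3) = 1 by decide, show ((6006 : ℕ) : ZMod 3) = 0 by decide,
      show ((10725 : ℕ) : ZMod 3) = 0 by decide, show ((1365 : ℕ) : ZMod 3) = 0 by decide,
      show ((6930 : ℕ) : ZMod 3) = 0 by decide]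
    simp
  have e5 : (ex k : ZMod 5) = k.1.1 := by
    rw [ex_cast, show ((5005 : ℕ) : ZMod 5) = 0 by decide, show ((6006 : ℕ) : ZMod 5) = 1 by decide,
      show ((10725 : ℕ) : ZMod 5) = 0 by decide, show ((1365 : ℕ) : ZMod 5) = 0 by decide,
      show ((6930 : ℕ) : ZMod 5) = 0 by decide]
    simp
  have e7 : (ex k : ZMod 7) = k.2.1.1 := by
    rw [ex_cast, show ((5005 : ℕ) : ZMod 7) = 0 by decide, show ((6006 : ℕ) : ZMod 7) = 0 by decide,
      show ((10725 : ℕ) : ZMod 7) = 1 by decide, show ((1365 : ℕ) : ZMod 7) = 0 by decide,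
      show ((6930 : ℕ) : ZMod 7) = 0 by decide]
    simp
  have e11 : (ex k : ZMod 11) = k.2.2.1.1 := by
    rw [ex_cast, show ((5005 : ℕ) : ZMod 11) = 0 by decide,
      show ((6006 : ℕ) : ZMod 11) = 0 by decide,
      show ((10725 : ℕ) : ZMod 11) = 0 by decide, show ((1365 : ℕ) : ZMod 11) = 1 by decide,
      show ((6930 : ℕ) : ZMod 11) = 0 by decide]
    simp
  have e13 : (ex k : ZMod 13) = k.2.2.2.1 := by
    rw [ex_cast, show ((5005 : ℕ) : ZMod 13) = 0 by decide,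
      show ((6006 : ℕ) : ZMod 13) = 0 by decide,
      show ((10725 : ℕ) : ZMod 13) = 0 by decide, show ((1365 : ℕ) : ZMod 13) = 0 by decide,
      show ((6930 : ℕ) : ZMod 13) = 1 by decide]
    simp
  simp only [zz, om, mul_pow, ← AddChar.map_nsmul_eq_pow, nsmul_eq_mul, e3, e5, e7, e11, e13,
    mul_one]
  rfl

/-- the conjugates -/
noncomputable def lam (s : Ix) : ℝ := 2 * (zz s).re

theorem lam_coe (s : Ix) : (lam s : ℂ) = zz s + conj (zz s) := by
  rw [Complex.add_conj, lam]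

/-- the matrix of embeddings -/
noncomputable def MM : Matrix Ix Ix ℝ :=
  Matrix.of fun k s => aeval (lam s) (dickson 1 (1 : ℤ) (ex k))

theorem MM_det : MM.det ^ 2 = ((3 : ℝ) ^ 30 * (5 ^ 45 * 7 ^ 50 * 11 ^ 54 * 13 ^ 55)) ^ 48 := by
  have h1 : MM.map (algebraMap ℝ ℂ) = (om • (1 : Matrix Ix Ix ℂ) + conj om • JJ) * FF := by
    ext k s
    rw [add_mul, smul_mul_assoc, smul_mul_assoc, one_mul, Matrix.add_apply, Matrix.smul_apply,
      Matrix.smul_apply, JJ_mul, FF_ng, smul_eq_mul, smul_eq_mul, ← map_mul, ← zz_pow, map_pow,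
      ← dickson_one_one_eval_add_inv _ _ (zz_conj s), ← lam_coe, Matrix.map_apply, MM,
      Matrix.of_apply, ← aeval_algebraMap_apply, aeval_def, ← eval_map, map_dickson, map_one]
    rfl
  have h2 := (algebraMap ℝ ℂ).map_det MM
  rw [RingHom.mapMatrix_apply, h1, Matrix.det_mul] at h2
  have h3 := congrArg (fun x : ℂ => ‖x‖ ^ 2) h2
  have h4 : ‖(om • (1 : Matrix Ix Ix ℂ) + conj om • JJ).det‖ ^ 2 = (3 ^ 30) ^ 48 := by
    rw [← norm_pow, HH_det, norm_pow, ← pow_mul, Complex.norm_ofNat]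
  simp only [norm_mul, mul_pow, h4, FF_det, Complex.coe_algebraMap, Complex.norm_real,
    Real.norm_eq_abs, sq_abs] at h3
  rw [h3]
  simp only [mul_pow]

end Pool.Agent.P.MP_4bb7d7_co
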