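import Pool.Agent.P.MP_4bb7d7_co.QuadUp

namespace Pool.Agent.P.MP_4bb7d7_co

open Matrix Finset Polynomial

section
variable {n : Type} [Fintype n] [DecidableEq n]

/-- A real square matrix of small Frobenius norm has small determinant. -/
theorem det_sq_le_one (B : Matrix n n ℝ) (h : ∑ j, ∑ i, B i j ^ 2 ≤ Fintype.card n) :
    B.det ^ 2 ≤ 1 := by
  have hP := Matrix.posSemidef_conjTranspose_mul_self B
  have h1 : (Bᴴ * B).det = B.det ^ 2 := by
    rw [Matrix.det_mul, Matrix.det_conjTranspose, star_trivial, sq]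
  have h2 : (Bᴴ * B).trace = ∑ j, ∑ i, B i j ^ 2 := by
    simp [Matrix.trace, Matrix.mul_apply, sq]
  rw [hP.1.trace_eq_sum_eigenvalues] at h2
  rw [← h1, hP.1.det_eq_prod_eigenvalues]
  simp only [RCLike.ofReal_real_eq_id, id] at h2 ⊢
  calc ∏ i, hP.1.eigenvalues i ≤ ∏ i, Real.exp (hP.1.eigenvalues i - 1) :=
        Finset.prod_le_prod (fun i _ => hP.eigenvalues_nonneg i) fun i _ => by
          linarith [Real.add_one_le_exp (hP.1.eigenvalues i - 1)]
    _ = Real.exp (∑ i, (hP.1.eigenvalues i - 1)) := (Real.exp_sum _ _).symm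
    _ ≤ 1 := by
        rw [Real.exp_le_one_iff, Finset.sum_sub_distrib, h2]
        simpa using h

/-- Rows of an orthogonal matrix, restricted to a set of columns, contain a basis. -/
theorem pick {u : n → n → ℝ} (h3 : ∀ k l, ∑ i, u i k * u i l = if k = l then 1 else 0)
    (p : n → Prop) [DecidablePred p] : ∃ a : {e // p e} → n, ∀ r : n → ℝ,
      ∃ c : {e // p e} → ℝ, ∀ e, p e → ∑ i, c i * u (a i) e = r e := by
  let w : n → {e // p e} → ℝ := fun i e => u i e
  have hw : Submodule.span ℝ (Set.range w) = ⊤ := by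
    rw [eq_top_iff]
    intro r _
    rw [Submodule.mem_span_range_iff_exists_fun]
    refine ⟨fun i => ∑ f : {e // p e}, r f * u i f, funext fun e => ?_⟩
    simp only [Finset.sum_apply, Pi.smul_apply, smul_eq_mul, w, Finset.sum_mul]
    rw [Finset.sum_comm]
    simp only [mul_assoc, ← Finset.mul_sum, h3, Subtype.val_inj]
    simp
  obtain ⟨κ, a, ha, hs, hl⟩ := exists_linearIndependent' ℝ w
  rw [hw] at hs
  let B : Module.Basis κ ℝ ({e // p e} → ℝ) := Module.Basis.mk hl hs.ge
  let ε := B.indexEquiv (Pi.basisFun ℝ {e // p e})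
  refine ⟨fun i => a (ε.symm i), fun r => ?_⟩
  have hr : (fun e : {e // p e} => r e) ∈ Submodule.span ℝ (Set.range ((w ∘ a) ∘ ε.symm)) := by
    rw [ε.symm.surjective.range_comp, hs]; trivial
  rw [Submodule.mem_span_range_iff_exists_fun] at hr
  obtain ⟨c, hc⟩ := hr
  refine ⟨c, fun e he => ?_⟩
  have := congrFun hc ⟨e, he⟩
  simpa [w] using this

theorem ker_iff {S : Type} [Fintype S] (A : Matrix n n ℚ) (a : S → n) : ∃ g : ℚ[X], ∀ x : ℝ,
    aeval x g = 0 ↔ ∃ v : n → ℝ, v ≠ 0 ∧ A.map (algebraMap ℚ ℝ) *ᵥ v = x • v ∧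
      ∀ i, v (a i) = 0 := by
  let N : Matrix (n ⊕ S) n ℚ[X] := Matrix.of fun r j => match r with
    | .inl i => C (A i j) - if i = j then X else 0
    | .inr i => if a i = j then 1 else 0
  refine ⟨(Nᵀ * N).det, fun x => ?_⟩
  let f : ℚ[X] →+* ℝ := (aeval x : ℚ[X] →ₐ[ℚ] ℝ)
  have h1 : aeval x (Nᵀ * N).det = ((N.map f)ᴴ * N.map f).det := by
    change f _ = _
    rw [RingHom.map_det, RingHom.mapMatrix_apply, Matrix.map_mul, Matrix.transpose_map,
      Matrix.conjTranspose_eq_transpose_of_trivial]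
  rw [h1, ← Matrix.exists_mulVec_eq_zero_iff]
  refine exists_congr fun v => and_congr Iff.rfl ?_
  rw [Matrix.conjTranspose_mul_self_mulVec_eq_zero, funext_iff, Sum.forall, funext_iff]
  refine and_congr (forall_congr' fun i => ?_) (forall_congr' fun i => ?_)
  · have : ∀ j, f (N (.inl i) j) = A i j - if i = j then x else 0 := fun j => by
      by_cases h : i = j <;> simp [N, f, h]
    simp [this, Matrix.mulVec, dotProduct, sub_mul, Finset.sum_sub_distrib, sub_eq_zero]
  · simp [N, f, Matrix.mulVec, dotProduct, apply_ite]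

theorem aeval_spec {A : Matrix n n ℤ} {u : n → n → ℝ} {μ : n → ℝ}
    (h1 : ∀ i j, (A i j : ℝ) = ∑ k, μ k * (u i k * u j k))
    (h2 : ∀ i j, ∑ k, u i k * u j k = if i = j then 1 else 0)
    (h3 : ∀ k l, ∑ i, u i k * u i l = if k = l then 1 else 0) (q : ℤ[X]) (i j : n) :
    ((aeval A q) i j : ℝ) = ∑ k, aeval (μ k) q * (u i k * u j k) := by
  have hp : ∀ (m : ℕ) (i j : n), ((A ^ m) i j : ℝ) = ∑ k, μ k ^ m * (u i k * u j k) := by
    intro m
    induction m with
    | zero => intro i j; simp [h2, Matrix.one_apply]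
    | succ m ih =>
      intro i j
      rw [pow_succ, Matrix.mul_apply]
      push_cast
      simp only [ih, h1, Finset.sum_mul_sum]
      rw [Finset.sum_comm]
      refine Finset.sum_congr rfl fun k _ => ?_
      rw [Finset.sum_comm]
      have : ∀ l, ∑ x, μ k ^ m * (u i k * u x k) * (μ l * (u x l * u j l)) =
          μ k ^ m * u i k * μ l * u j l * ∑ x, u x k * u x l := fun l => by
        rw [Finset.mul_sum]; exact Finset.sum_congr rfl fun x _ => by ring
      simp only [this, h3, mul_ite, mul_one, mul_zero, Finset.sum_ite_eq, Finset.mem_univ, if_true]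
      ring
  induction q using Polynomial.induction_on' with
  | add p q hp hq => simp [hp, hq, add_mul, Finset.sum_add_distrib]
  | monomial m c =>
    simp only [aeval_monomial, ← Algebra.smul_def, Matrix.smul_apply, smul_eq_mul]
    push_cast
    rw [hp, Finset.mul_sum]
    exact Finset.sum_congr rfl fun k _ => by simp [mul_assoc]

end

theorem poly_bound (P : ℤ[X]) : ∃ D : ℕ, ∀ N : ℝ, 2 ≤ N → ∀ x : ℝ, |x| ≤ N →
    |aeval x P| ≤ N ^ D := by
  induction P using Polynomial.induction_on' with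
  | add p q hp hq =>
    obtain ⟨D, hD⟩ := hp
    obtain ⟨E, hE⟩ := hq
    refine ⟨D + E + 1, fun N hN x hx => ?_⟩
    have h1 := pow_le_pow_right₀ (by linarith : 1 ≤ N) (Nat.le_add_right D E)
    have h2 := pow_le_pow_right₀ (by linarith : 1 ≤ N) (Nat.le_add_left E D)
    have h3 : 0 ≤ N ^ (D + E) := by positivity
    rw [map_add, pow_succ]
    nlinarith [abs_add_le (aeval x p) (aeval x q), hD N hN x hx, hE N hN x hx]
  | monomial m c =>
    refine ⟨c.natAbs + m, fun N hN x hx => ?_⟩
    rw [aeval_monomial, abs_mul, abs_pow, pow_add]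
    refine mul_le_mul ?_ (pow_le_pow_left₀ (abs_nonneg _) hx m) (by positivity) (by positivity)
    have h1 : ((c.natAbs : ℕ) : ℝ) ≤ 2 ^ c.natAbs := by exact_mod_cast Nat.lt_two_pow_self.le
    have h2 : |(algebraMap ℤ ℝ) c| = (c.natAbs : ℕ) := by simp
    rw [h2]
    exact h1.trans (pow_le_pow_left₀ (by norm_num) hN _)

end Pool.Agent.P.MP_4bb7d7_co
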