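import Pool.Agent.P.MP_4bb7d7_co.QuadUp

namespace Pool.Agent.P.MP_4bb7d7_co

open Matrix Finset Polynomial

open Classical in
theorem le_maxMult {V U : Type} [Fintype V] [AddCommGroup U] [Module ℂ U] (G : SimpleGraph V)
    {n : ℕ} (hn : Fintype.card V ≤ n) {l : ℂ} (Φ : U →ₗ[ℂ] V → ℂ) (hΦ : Function.Injective Φ)
    (h : ∀ u i, ∑ j, (if G.Adj i j then Φ u j else 0) = l * Φ u i) :
    Module.finrank ℂ U ≤ maxMult n l := by
  obtain ⟨e⟩ : Nonempty (V ↪ Fin n) := Function.Embedding.nonempty_of_card_le (by simpa using hn)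
  refine le_trans ?_ (Finset.le_sup (f := fun G : SimpleGraph (Fin n) => mult G l)
    (mem_univ (G.map e)))
  let Ψ : U →ₗ[ℂ] Fin n → ℂ := (Function.ExtendByZero.linearMap ℂ e).comp Φ
  have p1 : ∀ u j, Ψ u (e j) = Φ u j := fun u j => e.injective.extend_apply _ _ j
  have p0 : ∀ u, ∀ y ∉ Set.range e, Ψ u y = 0 := fun u y hy => Function.extend_apply' _ _ _ hy
  refine LinearMap.finrank_le_finrank_of_injective (f := Ψ.codRestrict _ fun u => ?_)
    fun u v huv => hΦ (funext fun j => ?_)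
  · rw [Module.End.mem_eigenspace_iff, Matrix.toLin'_apply]
    funext y
    simp only [Matrix.mulVec, dotProduct, SimpleGraph.adjMatrix_apply, ite_mul, one_mul, zero_mul,
      Pi.smul_apply, smul_eq_mul]
    by_cases hy : y ∈ Set.range e
    · obtain ⟨i, rfl⟩ := hy
      rw [p1, ← h]
      exact (Fintype.sum_of_injective e e.injective _ _ (fun z hz => by simp [p0 u z hz])
        fun j => by simp [p1]).symm
    · rw [p0 u y hy, mul_zero]
      exact Finset.sum_eq_zero fun z _ => if_neg fun hz => by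
        obtain ⟨a, -, -, ha, -⟩ := (SimpleGraph.map_adj e G y z).1 hz
        exact hy ⟨a, ha⟩
  · rw [← p1, ← p1]
    exact congrFun (congrArg Subtype.val huv) (e j)

/-- signed hypercubes -/
theorem exists_weigh (q : ℕ) : ∃ (K : Type) (_ : Fintype K) (_ : DecidableEq K)
    (W : Matrix K K ℤ), 0 < Fintype.card K ∧ (∀ i j, W i j = W j i) ∧ W * W = (q : ℤ) • 1 ∧
      ∀ i j, W i j = 0 ∨ W i j = 1 ∨ W i j = -1 := by
  induction q with
  | zero => exact ⟨Unit, inferInstance, inferInstance, 0, by simp, by simp, by simp, by simp⟩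
  | succ q ih =>
    obtain ⟨K, _, _, W, h0, h1, h2, h3⟩ := ih
    refine ⟨K ⊕ K, inferInstance, inferInstance, fromBlocks W 1 1 (-W), by simp; omega, ?_, ?_, ?_⟩
    · rintro (i | i) (j | j) <;> simp [h1 i j, one_apply, eq_comm]
    · rw [fromBlocks_multiply, ← fromBlocks_one, fromBlocks_smul]
      simp [h2, add_smul, add_comm]
    · rintro (i | i) (j | j)
      · exact h3 i j
      · by_cases h : i = j <;> simp [h]
      · by_cases h : i = j <;> simp [h]
      · rcases h3 i j with h | h | h <;> simp [h]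

open Classical in
/-- `D` acts on `Z` as the scalar `a` -/
def Act {X : Type} [Fintype X] (Z : Submodule ℂ (X → ℂ)) (D : SimpleGraph X) (a : ℤ) : Prop :=
  ∀ v ∈ Z, ∀ x, ∑ y, (if D.Adj x y then v y else 0) = a * v x

/-- the two layer graph -/
def lay {K X : Type} (W : Matrix K K ℤ) (hW : ∀ i j, W i j = W j i) (D D' : SimpleGraph X) :
    SimpleGraph ((K × X) ⊕ (K × X)) where
  Adj
    | .inl a, .inl b => a.1 = b.1 ∧ D.Adj a.2 b.2
    | .inr a, .inr b => a.1 = b.1 ∧ D'.Adj a.2 b.2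
    | .inl a, .inr b => (W a.1 b.1 = 1 ∧ a.2 = b.2) ∨ (W a.1 b.1 = -1 ∧ a.2 ≠ b.2)
    | .inr a, .inl b => (W a.1 b.1 = 1 ∧ a.2 = b.2) ∨ (W a.1 b.1 = -1 ∧ a.2 ≠ b.2)
  symm := ⟨by
    rintro (a | a) (b | b) h
    · exact ⟨h.1.symm, h.2.symm⟩
    · exact h.imp (fun h => ⟨hW _ _ ▸ h.1, h.2.symm⟩) fun h => ⟨hW _ _ ▸ h.1, h.2.symm⟩
    · exact h.imp (fun h => ⟨hW _ _ ▸ h.1, h.2.symm⟩) fun h => ⟨hW _ _ ▸ h.1, h.2.symm⟩
    · exact ⟨h.1.symm, h.2.symm⟩⟩
  loopless := ⟨by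
    rintro (a | a) h
    · exact h.2.ne rfl
    · exact h.2.ne rfl⟩

theorem cross {X : Type} [Fintype X] {w : ℤ} (hw : w = 0 ∨ w = 1 ∨ w = -1) {v : X → ℂ}
    (hv : ∑ y, v y = 0) (x : X) (P : X → Prop) {_ : DecidablePred P}
    (hP : ∀ y, P y ↔ (w = 1 ∧ x = y) ∨ (w = -1 ∧ x ≠ y)) :
    ∑ y, (if P y then v y else 0) = w * v x := by
  classical
  rcases hw with rfl | rfl | rfl
  · simp [hP]
  · simp [hP]
  · have : ∀ y, (if P y then v y else 0) = v y - if x = y then v y else 0 := fun y => by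
      by_cases h : x = y <;> simp [hP, h]
    simp only [this, Finset.sum_sub_distrib, hv]
    simp

theorem same {K X : Type} [Fintype K] [Fintype X] {Z : Submodule ℂ (X → ℂ)} {D : SimpleGraph X}
    {a : ℤ} (h : Act Z D a) (i : K) (x : X) {g : K → X → ℂ} (hg : g i ∈ Z) (P : K → X → Prop)
    {_ : ∀ k y, Decidable (P k y)} (hP : ∀ k y, P k y ↔ i = k ∧ D.Adj x y) :
    ∑ k, ∑ y, (if P k y then g k y else 0) = a * g i x := by
  classical
  rw [← h _ hg x, Finset.sum_eq_single i (fun k _ hk => Finset.sum_eq_zero fun y _ =>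
    if_neg fun e => hk ((hP k y).1 e).1.symm) (by simp)]
  exact Finset.sum_congr rfl fun y _ => if_congr ((hP i y).trans (and_iff_right rfl)) rfl rfl

theorem build {l : ℂ} {a b : ℤ} {q : ℕ} (hq : (l - a) * (l - b) = q) (ha : l ≠ a) :
    ∃ k : ℕ, 0 < k ∧ ∀ (X : Type) [Fintype X] (Z : Submodule ℂ (X → ℂ)) (D D' : SimpleGraph X),
      (∀ v ∈ Z, ∑ y, v y = 0) → Act Z D a → Act Z D' b → ∀ n, 2 * (k * Fintype.card X) ≤ n →
      k * Module.finrank ℂ Z ≤ maxMult n l := by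
  classical
  obtain ⟨K, _, _, W, h0, h1, h2, h3⟩ := exists_weigh q
  refine ⟨Fintype.card K, h0, fun X _ Z D D' hZ hD hD' n hn => ?_⟩
  let Φ : (K → Z) →ₗ[ℂ] ((K × X) ⊕ (K × X)) → ℂ :=
    { toFun f := Sum.elim (fun c => ∑ k, W c.1 k * (f k).1 c.2) fun c => (l - a) * (f c.1).1 c.2
      map_add' f g := by
        funext c
        rcases c with c | c <;> simp [mul_add, Finset.sum_add_distrib]
      map_smul' r f := by
        funext c
        rcases c with c | c <;> simp [Finset.mul_sum, mul_left_comm] }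
  have e1 : ∀ f c, Φ f (.inl c) = ∑ k, W c.1 k * (f k).1 c.2 := fun _ _ => rfl
  have e2 : ∀ f c, Φ f (.inr c) = (l - a) * (f c.1).1 c.2 := fun _ _ => rfl
  have m1 : ∀ f i, (fun x => Φ f (.inl (i, x))) ∈ Z := fun f i => by
    have : (fun x => Φ f (.inl (i, x))) = ∑ k, (W i k : ℂ) • (f k).1 := by
      funext x; simp [e1]
    rw [this]
    exact Z.sum_mem fun k _ => Z.smul_mem _ (f k).2
  have m2 : ∀ f i, (fun x => Φ f (.inr (i, x))) ∈ Z := fun f i => Z.smul_mem (l - a) (f i).2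
  have := le_maxMult (lay W h1 D D') (n := n) (l := l) (by simpa [two_mul] using hn) Φ
    (fun f g h => funext fun i => Subtype.ext (funext fun x =>
      mul_left_cancel₀ (sub_ne_zero.2 ha) (congrFun h (.inr (i, x))))) (by
      rintro f (⟨i, x⟩ | ⟨i, x⟩)
      · simp only [Fintype.sum_sum_type, Fintype.sum_prod_type]
        rw [same hD i x (g := fun k y => Φ f (.inl (k, y))) (m1 f i)
            (fun k y => (lay W h1 D D').Adj (.inl (i, x)) (.inl (k, y))) fun _ _ => Iff.rfl,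
          Finset.sum_congr rfl fun k _ => cross (h3 i k) (hZ _ (m2 f k)) x
            (fun y => (lay W h1 D D').Adj (.inl (i, x)) (.inr (k, y))) fun _ => Iff.rfl]
        simp only [e1, e2, mul_left_comm _ (l - a), ← Finset.mul_sum]
        ring
      · simp only [Fintype.sum_sum_type, Fintype.sum_prod_type]
        rw [same hD' i x (g := fun k y => Φ f (.inr (k, y))) (m2 f i)
            (fun k y => (lay W h1 D D').Adj (.inr (i, x)) (.inr (k, y))) fun _ _ => Iff.rfl,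
          Finset.sum_congr rfl fun k _ => cross (h3 i k) (hZ _ (m1 f k)) x
            (fun y => (lay W h1 D D').Adj (.inr (i, x)) (.inl (k, y))) fun _ => Iff.rfl]
        have : ∑ k, (W i k : ℂ) * Φ f (.inl (k, x)) = q * (f i).1 x := by
          simp only [e1, Finset.mul_sum, ← mul_assoc]
          rw [Finset.sum_comm]
          simp only [← Finset.sum_mul, ← Int.cast_mul, ← Int.cast_sum, ← Matrix.mul_apply, h2]
          simp [one_apply]
        rw [this, e2, ← hq]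
        ring)
  rwa [Module.finrank_pi_fintype, Finset.sum_const, card_univ, smul_eq_mul] at this

open Classical in
theorem Act.compl {X : Type} [Fintype X] {Z : Submodule ℂ (X → ℂ)} {D : SimpleGraph X} {a : ℤ}
    (h : Act Z D a) (hZ : ∀ v ∈ Z, ∑ y, v y = 0) : Act Z Dᶜ (-1 - a) := fun v hv x => by
  rw [Finset.sum_congr rfl (g := fun y => v y - (if x = y then v y else 0) -
    if D.Adj x y then v y else 0) fun y _ => by
      by_cases h1 : x = y
      · simp [h1]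
      · by_cases h2 : D.Adj x y <;> simp [h1, h2]]
  simp only [Finset.sum_sub_distrib, hZ v hv, h v hv x]
  simp
  ring

theorem act_bot {X : Type} [Fintype X] (Z : Submodule ℂ (X → ℂ)) : Act Z ⊥ 0 := fun v _ x => by
  simp

theorem finrank_ker_ge {X ι : Type} [Fintype X] [Fintype ι] (f : (X → ℂ) →ₗ[ℂ] ι → ℂ) :
    Fintype.card X ≤ Module.finrank ℂ (LinearMap.ker f) + Fintype.card ι := by
  have h1 := f.finrank_range_add_finrank_ker
  have h2 := (LinearMap.range f).finrank_le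
  simp only [Module.finrank_fintype_fun_eq_card] at h1 h2
  omega

theorem small (N : ℕ) : ∃ Z : Submodule ℂ (Fin N → ℂ), (∀ v ∈ Z, ∑ y, v y = 0) ∧
    N ≤ Module.finrank ℂ Z + 1 ∧ ∀ a : ℤ, a = 0 ∨ a = -1 → ∃ D, Act Z D a := by
  let f : (Fin N → ℂ) →ₗ[ℂ] Unit → ℂ :=
    { toFun v _ := ∑ y, v y
      map_add' v w := by funext; simp [Finset.sum_add_distrib]
      map_smul' r v := by funext; simp [Finset.mul_sum] }
  have hZ : ∀ v ∈ LinearMap.ker f, ∑ y, v y = 0 := fun v hv => congrFun hv ()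
  refine ⟨_, hZ, by simpa using finrank_ker_ge f, ?_⟩
  rintro a (rfl | rfl)
  · exact ⟨_, act_bot _⟩
  · exact ⟨_, (act_bot _).compl hZ⟩

/-- the line of slope `c` through a point -/
def ln {N : ℕ} (c : ℕ) (p : Fin N × Fin N) : ℕ := p.2 + c * p.1

/-- the graph of a net -/
def net (N j : ℕ) : SimpleGraph (Fin N × Fin N) where
  Adj p p' := p ≠ p' ∧ ∃ c < j, ln c p = ln c p'
  symm := ⟨fun _ _ h => ⟨h.1.symm, h.2.imp fun _ h => ⟨h.1, h.2.symm⟩⟩⟩
  loopless := ⟨fun _ h => h.1 rfl⟩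

theorem ln_eq {N c c' : ℕ} {p p' : Fin N × Fin N} (hp : p ≠ p') (h : ln c p = ln c p')
    (h' : ln c' p = ln c' p') : c = c' := by
  by_contra hc
  unfold ln at h h'
  have h1 : ((c : ℤ) - c') * ((p.1 : ℤ) - p'.1) = 0 := by
    zify at h h'
    linear_combination h - h'
  have h2 : p.1 = p'.1 := Fin.ext (by
    have := (mul_eq_zero.1 h1).resolve_left (by omega)
    omega)
  rw [h2] at h
  exact hp (Prod.ext h2 (Fin.ext (by omega)))

theorem large (N J : ℕ) : ∃ Z : Submodule ℂ (Fin N × Fin N → ℂ), (∀ v ∈ Z, ∑ y, v y = 0) ∧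
    N * N ≤ Module.finrank ℂ Z + (J + 1) * ((J + 1) * N) ∧
      ∀ a : ℤ, |a| ≤ J → ∃ D, Act Z D a := by
  classical
  let f : (Fin N × Fin N → ℂ) →ₗ[ℂ] Fin (J + 1) × Fin ((J + 1) * N) → ℂ :=
    { toFun v c := ∑ y, if ln c.1 y = c.2 then v y else 0
      map_add' v w := by
        funext c
        simp only [Pi.add_apply, ← Finset.sum_add_distrib]
        exact Finset.sum_congr rfl fun y _ => by split_ifs <;> simp
      map_smul' r v := by funext; simp [Finset.mul_sum] }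
  have lt : ∀ c ≤ J, ∀ p : Fin N × Fin N, ln c p < (J + 1) * N := fun c hc p => by
    have := Nat.mul_le_mul hc p.1.2.le
    have := p.2.2
    unfold ln
    nlinarith
  have h1 : ∀ v ∈ LinearMap.ker f, ∀ c ≤ J, ∀ p : Fin N × Fin N,
      ∑ y, (if ln c y = ln c p then v y else 0) = 0 := fun v hv c hc p =>
    congrFun hv (⟨c, by omega⟩, ⟨_, lt c hc p⟩)
  have hZ : ∀ v ∈ LinearMap.ker f, ∑ y, v y = 0 := fun v hv => by
    have h2 : ∀ y, v y = ∑ z : Fin ((J + 1) * N), if ln 0 y = z then v y else 0 := fun y => by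
      rw [Finset.sum_eq_single ⟨_, lt 0 J.zero_le y⟩ (fun z _ hz => if_neg fun e =>
        hz (Fin.ext e.symm)) (by simp), if_pos rfl]
    rw [Finset.sum_congr rfl fun y _ => h2 y, Finset.sum_comm]
    exact Finset.sum_eq_zero fun z _ => congrFun hv (0, z)
  have h3 : ∀ j ≤ J + 1, Act (LinearMap.ker f) (net N j) (-j) := fun j hj v hv x => by
    have h4 : ∀ y, (if (net N j).Adj x y then v y else 0) =
        (∑ c ∈ range j, if ln c y = ln c x then v y else 0) - if x = y then j * v y else 0 := by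
      intro y
      by_cases e : x = y
      · simp [e]
      rw [if_neg e, sub_zero]
      split_ifs with h
      · obtain ⟨c, hc, h⟩ := h.2
        rw [Finset.sum_eq_single_of_mem c (mem_range.2 hc)
          (fun c' _ hc' => if_neg fun h' => hc' (ln_eq e h'.symm h)), if_pos h.symm]
      · exact (Finset.sum_eq_zero fun c hc => if_neg fun h' =>
          h ⟨e, c, mem_range.1 hc, h'.symm⟩).symm
    simp only [h4, Finset.sum_sub_distrib]
    rw [Finset.sum_comm, Finset.sum_eq_zero fun c hc =>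
      h1 v hv c (by have := mem_range.1 hc; omega) x]
    simp
  refine ⟨_, hZ, by simpa using finrank_ker_ge f, fun a ha => ?_⟩
  obtain ⟨k1, k2⟩ := abs_le.1 ha
  rcases le_total a 0 with h | h
  · obtain ⟨j, rfl⟩ := Int.exists_eq_neg_ofNat h
    exact ⟨_, h3 j (by omega)⟩
  · obtain ⟨j, rfl⟩ := Int.eq_ofNat_of_zero_le h
    have := (h3 (j + 1) (by omega)).compl hZ
    rw [show (-1 - -((j + 1 : ℕ) : ℤ)) = j by push_cast; ring] at this
    exact ⟨_, this⟩

theorem exists_q {l : ℝ} {s r a b : ℤ} (h : l ^ 2 = s * l + r) (hl : ∀ q : ℚ, l ≠ q)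
    (hab : a + b = s) (h1 : a = b ∨ a = b + 1) :
    ∃ q : ℕ, ((l : ℂ) - a) * (l - b) = q ∧ (l : ℂ) ≠ a := by
  have e : (l - a) * (l - b) = (r + a * b : ℤ) := by
    rw [← hab] at h
    push_cast at h ⊢
    linear_combination h
  have h0 : -1 < r + a * b := by
    have : (-1 : ℝ) < (r + a * b : ℤ) := by
      rw [← e]
      rcases h1 with rfl | rfl
      · nlinarith [sq_nonneg (l - a)]
      · push_cast
        nlinarith [sq_nonneg (l - b - 1 / 2)]
    exact_mod_cast this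
  obtain ⟨q, hq⟩ := Int.eq_ofNat_of_zero_le (show 0 ≤ r + a * b by omega)
  rw [hq] at e
  exact ⟨q, by exact_mod_cast e, fun h => hl a (by exact_mod_cast h)⟩

theorem lower_const {l : ℝ} {s r : ℤ} (h : l ^ 2 = s * l + r) (hl : ∀ q : ℚ, l ≠ q)
    (hs : s = 0 ∨ s = -1 ∨ s = -2) : ∃ C : ℝ, ∀ n : ℕ, n / 2 - C ≤ (maxMult n l : ℝ) := by
  obtain ⟨q, h1, h2⟩ := exists_q h hl (a := s - s / 2) (b := s / 2) (by ring) (by omega)
  obtain ⟨k, k0, hk⟩ := build h1 h2
  refine ⟨2 * k, fun n => ?_⟩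
  obtain ⟨Z, z1, z2, z3⟩ := small (n / (2 * k))
  obtain ⟨D, hD⟩ := z3 (s - s / 2) (by omega)
  obtain ⟨D', hD'⟩ := z3 (s / 2) (by omega)
  have a1 := hk _ Z D D' z1 hD hD' n (by
    rw [Fintype.card_fin, ← mul_assoc]; exact Nat.mul_div_le _ _)
  have a2 := Nat.lt_mul_div_succ n (show 0 < 2 * k by omega)
  have a3 : ((n : ℕ) : ℝ) ≤ (2 * maxMult n l + 4 * k : ℕ) :=
    Nat.cast_le.2 (by nlinarith [Nat.mul_le_mul_left k z2])
  push_cast at a3
  linarith

theorem lower_sqrt {l : ℝ} {s r : ℤ} (h : l ^ 2 = s * l + r) (hl : ∀ q : ℚ, l ≠ q) :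
    ∃ C : ℝ, ∀ n : ℕ, n / 2 - C * √n ≤ (maxMult n l : ℝ) := by
  obtain ⟨q, h1, h2⟩ := exists_q h hl (a := s - s / 2) (b := s / 2) (by ring) (by omega)
  obtain ⟨k, k0, hk⟩ := build h1 h2
  obtain ⟨J, hJ⟩ : ∃ J, J = s.natAbs := ⟨_, rfl⟩
  refine ⟨k * (J + 1) ^ 2 + 4 * k, fun n => ?_⟩
  rcases Nat.eq_zero_or_pos n with rfl | n0
  · simp
  obtain ⟨N, hN⟩ : ∃ N, N = Nat.sqrt (n / (2 * k)) := ⟨_, rfl⟩
  obtain ⟨Z, z1, z2, z3⟩ := large N J
  obtain ⟨D, hD⟩ := z3 (s - s / 2) (abs_le.2 (by omega))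
  obtain ⟨D', hD'⟩ := z3 (s / 2) (abs_le.2 (by omega))
  have b1 : N * N ≤ n / (2 * k) := hN ▸ Nat.sqrt_le _
  have b2 : n / (2 * k) < (N + 1) * (N + 1) := hN ▸ Nat.lt_succ_sqrt _
  have a1 := hk _ Z D D' z1 hD hD' n (by
    rw [Fintype.card_prod, Fintype.card_fin, ← mul_assoc]
    exact (Nat.mul_le_mul_left _ b1).trans (Nat.mul_div_le _ _))
  have a2 := (Nat.lt_mul_div_succ n (show 0 < 2 * k by omega)).le.trans
    (Nat.mul_le_mul_left _ b2)
  have a3 : ((n : ℕ) : ℝ) ≤ (2 * maxMult n l + 2 * (k * (J + 1) ^ 2 + 2 * k) * N + 2 * k : ℕ) :=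
    Nat.cast_le.2 (by nlinarith [Nat.mul_le_mul_left k z2])
  have a4 : (N : ℝ) ≤ √n := Real.le_sqrt_of_sq_le (by
    have := b1.trans (Nat.div_le_self _ _)
    rw [sq]
    exact_mod_cast this)
  have a5 : (1 : ℝ) ≤ √n := Real.le_sqrt_of_sq_le (by rw [one_pow]; exact_mod_cast n0)
  have a6 := mul_le_mul_of_nonneg_left a4 (show (0 : ℝ) ≤ k * (J + 1) ^ 2 + 2 * k by positivity)
  have a7 := mul_le_mul_of_nonneg_left a5 (show (0 : ℝ) ≤ k by positivity)
  have a8 : (0 : ℝ) ≤ k := by positivity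
  push_cast at a3
  linarith

theorem quad_main (l : ℝ) (hl : IsIntegral ℤ l) (hd : (minpoly ℚ l).natDegree = 2) :
    ((minpoly ℚ l).coeff 1 ∈ ({0, 1, 2} : Set ℚ) →
      ∃ C : ℝ, ∀ n : ℕ, n / 2 - C ≤ (maxMult n l : ℝ) ∧ (maxMult n l : ℝ) ≤ n / 2) ∧
    ((minpoly ℚ l).coeff 1 ∉ ({0, 1, 2} : Set ℚ) →
      ∃ c C : ℝ, 0 < c ∧ ∀ n : ℕ,
        n / 2 - C * √n ≤ (maxMult n l : ℝ) ∧ (maxMult n l : ℝ) ≤ n / 2 - c * √n) := by
  obtain ⟨s, r, h1, h2, h3, h4⟩ := quad_data hl hd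
  have hne : l ≠ s - l := fun h => h3 (s / 2) (by push_cast; linarith)
  have e : (minpoly ℚ l).coeff 1 ∈ ({0, 1, 2} : Set ℚ) ↔ s = 0 ∨ s = -1 ∨ s = -2 := by
    rw [neg_eq_iff_eq_neg.1 h1]
    simp only [Set.mem_insert_iff, Set.mem_singleton_iff, neg_eq_iff_eq_neg, neg_zero]
    norm_cast
  rw [e]
  refine ⟨fun hs => (lower_const h2 h3 hs).imp fun C hC n => ⟨hC n, upper_half hne h4 n⟩,
    fun hs => ?_⟩
  obtain ⟨C, hC⟩ := lower_sqrt h2 h3
  obtain ⟨c, c0, hc⟩ := upper_sqrt hne h4 (by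
    rw [add_sub_cancel]
    exact_mod_cast (by omega : 1 ≤ s ∨ s ≤ -3))
  exact ⟨c, C, c0, fun n => ⟨hC n, hc n⟩⟩

end Pool.Agent.P.MP_4bb7d7_co
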