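import Pool.Agent.P.MP_4bb7d7_co.LgCyc
import Pool.Agent.P.MP_4bb7d7_co.QuadLo

namespace Pool.Agent.P.MP_4bb7d7_co

open Matrix Finset Polynomial ComplexConjugate IntermediateField

theorem gap {κ : Type} [Fintype κ] [DecidableEq κ] (lam : κ → ℝ) (s0 : κ)
    (hc : ∀ s s' (q : ℚ[X]), aeval (lam s) q = 0 → aeval (lam s') q = 0)
    (P : ℤ[X]) (hP : ∀ x : ℝ, aeval x P = 0 ↔ ∃ s, x = lam s)
    (q : κ → ℤ[X]) (M : Matrix κ κ ℝ) (hM : ∀ k s, M k s = aeval (lam s) (q k)) (h0 : M.det ≠ 0)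
    (h1 : M.det ^ 2 < (Fintype.card κ : ℝ) ^ Fintype.card κ) : ∃ c : ℝ, 0 < c ∧ ∀ n : ℕ, 2 ≤ n →
      (maxMult n (lam s0) : ℝ) ≤ n / Fintype.card κ - c * (n / Real.log n) := by
  obtain ⟨D, hD⟩ := poly_bound P
  have d0 : (0 : ℝ) < Fintype.card κ := Nat.cast_pos.2 (Fintype.card_pos_iff.2 ⟨s0⟩)
  have r0 : 0 < M.det ^ 2 / (Fintype.card κ : ℝ) ^ Fintype.card κ := by positivity
  have r1 : M.det ^ 2 / (Fintype.card κ : ℝ) ^ Fintype.card κ < 1 :=
    (div_lt_one (by positivity)).2 h1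
  have core' := fun (n : ℕ) (hn : 2 ≤ n) (G : SimpleGraph (Fin n)) =>
    core lam s0 hc P hP q M hM h0 G (w := (n : ℝ) ^ D) (by positivity)
      (hD n (by exact_mod_cast hn))
  generalize M.det ^ 2 / (Fintype.card κ : ℝ) ^ Fintype.card κ = ρ at r0 r1 core'
  obtain ⟨δ, hδ⟩ : ∃ δ, δ = -Real.log ρ := ⟨_, rfl⟩
  have δ0 : 0 < δ := by rw [hδ]; linarith [Real.log_neg r0 r1]
  have l2 : 0 < Real.log 2 := Real.log_pos one_lt_two
  obtain ⟨c, c0, c1, c2⟩ : ∃ c : ℝ, 0 < c ∧ c ≤ δ / (4 * (D + 1) * Fintype.card κ) ∧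
      c ≤ Real.log 2 / 2 := ⟨min _ _, by positivity, min_le_left _ _, min_le_right _ _⟩
  refine ⟨c / Fintype.card κ, by positivity, fun n hn => ?_⟩
  obtain ⟨G, hG⟩ := max_attained n (lam s0)
  obtain ⟨m, t, a1, a2, a3⟩ := core' n hn G
  have n2 : (2 : ℝ) ≤ n := by exact_mod_cast hn
  have ln : Real.log 2 ≤ Real.log n := Real.log_le_log two_pos n2
  have a4 := Real.log_nonneg a3
  rw [Real.log_mul (by positivity) (by positivity), Real.log_pow, Real.log_pow, Real.log_pow,
    Real.log_pow] at a4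
  have a5 : (n : ℝ) = Fintype.card κ * m + t := by exact_mod_cast a2
  have m0 : (0 : ℝ) ≤ m := m.cast_nonneg
  have t0 : (0 : ℝ) ≤ t := t.cast_nonneg
  have L0 : 0 < Real.log n := l2.trans_le ln
  rw [le_div_iff₀ (by positivity)] at c1
  have b1 : (4 * (D + 1)) * (c * (Fintype.card κ * m)) ≤ (4 * (D + 1)) * (t * Real.log n / 2) := by
    push_cast at a4
    nlinarith [mul_le_mul_of_nonneg_right c1 m0, mul_nonneg t0 L0.le]
  have b2 := le_of_mul_le_mul_left b1 (by positivity)
  have b3 : c * n ≤ t * Real.log n := by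
    rw [a5, ← a5]
    nlinarith [mul_le_mul_of_nonneg_right c2 t0, mul_le_mul_of_nonneg_left ln t0]
  have b4 : c * (n / Real.log n) ≤ t := by
    rw [← mul_div_assoc, div_le_iff₀ L0]; exact b3
  rw [hG]
  refine (Nat.cast_le.2 a1).trans ?_
  rw [div_mul_eq_mul_div, ← sub_div, le_div_iff₀ d0]
  linarith

theorem prim_aeval {z : ℂ} (hz : IsPrimitiveRoot z 15015) {x : ℝ} (hx : (x : ℂ) = z + z ^ 15014)
    (q : ℚ[X]) : aeval x q = 0 ↔ cyclotomic 15015 ℚ ∣ q.comp (X + X ^ 15014) := by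
  rw [cyclotomic_eq_minpoly_rat hz (by norm_num), minpoly.dvd_iff, aeval_comp, map_add,
    map_pow, aeval_X, ← hx]
  exact (aeval_algebraMap_eq_zero_iff_of_injective (algebraMap ℝ ℂ).injective).symm

theorem lam_aeval (s : Ix) (q : ℚ[X]) :
    aeval (lam s) q = 0 ↔ cyclotomic 15015 ℚ ∣ q.comp (X + X ^ 15014) :=
  prim_aeval (zz_prim s) (by rw [lam_coe, zz_conj']) q

theorem lam_conj (s s' : Ix) (q : ℚ[X]) (h : aeval (lam s) q = 0) : aeval (lam s') q = 0 :=
  (lam_aeval s' q).2 ((lam_aeval s q).1 h)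

theorem lam_int (s : Ix) : IsIntegral ℤ (lam s) := by
  have h := (zz_prim s).isIntegral (by norm_num)
  rw [← isIntegral_algebraMap_iff (algebraMap ℝ ℂ).injective, Complex.coe_algebraMap, lam_coe,
    zz_conj']
  exact h.add (h.pow _)

theorem MM_ne : MM.det ≠ 0 := fun h => by
  have := MM_det
  rw [h, zero_pow two_ne_zero] at this
  exact absurd this (ne_of_lt (by positivity))

theorem lam_inj : Function.Injective lam := fun s s' h => by
  by_contra hne
  exact MM_ne (Matrix.det_zero_of_column_eq hne fun k => by simp only [MM, Matrix.of_apply, h])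

theorem lam_deg_le (s : Ix) : (minpoly ℚ (lam s)).natDegree ≤ 2880 := by
  have hz : IsIntegral ℚ (zz s) := ((zz_prim s).isIntegral (by norm_num)).tower_top
  have hl : IsIntegral ℚ (algebraMap ℝ ℂ (lam s)) := (lam_int s).tower_top.algebraMap
  have e1 : Module.finrank ℚ ℚ⟮zz s⟯ = 5760 := by
    rw [adjoin.finrank hz, ← cyclotomic_eq_minpoly_rat (zz_prim s) (by norm_num),
      natDegree_cyclotomic, show 15015 = 3 * (5 * (7 * (11 * 13))) from rfl,
      Nat.totient_mul (by norm_num), Nat.totient_mul (by norm_num), Nat.totient_mul (by norm_num),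
      Nat.totient_mul (by norm_num), Nat.totient_prime (by norm_num),
      Nat.totient_prime (by norm_num), Nat.totient_prime (by norm_num),
      Nat.totient_prime (by norm_num), Nat.totient_prime (by norm_num)]
  have := adjoin.finiteDimensional hz
  have hle : ℚ⟮algebraMap ℝ ℂ (lam s)⟯ ≤ ℚ⟮zz s⟯ := by
    rw [adjoin_simple_le_iff, Complex.coe_algebraMap, lam_coe, zz_conj']
    exact add_mem (mem_adjoin_simple_self _ _) (pow_mem (mem_adjoin_simple_self _ _) _)
  have hd := finrank_dvd_of_le_right hle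
  have hne : Module.finrank ℚ ℚ⟮algebraMap ℝ ℂ (lam s)⟯ ≠ Module.finrank ℚ ℚ⟮zz s⟯ := fun h => by
    have h1 := eq_of_le_of_finrank_eq hle h
    have h2 : ℚ⟮algebraMap ℝ ℂ (lam s)⟯ ≤ (IsScalarTower.toAlgHom ℚ ℝ ℂ).fieldRange := by
      rw [adjoin_simple_le_iff]; exact ⟨_, rfl⟩
    obtain ⟨x, hx⟩ := h2 (h1 ▸ mem_adjoin_simple_self ℚ (zz s))
    have h3 : conj (zz s) = zz s := by rw [← hx]; exact Complex.conj_ofReal x
    have h4 := zz_conj s
    rw [h3, ← sq] at h4
    exact absurd ((zz_prim s).dvd_of_pow_eq_one 2 h4) (by norm_num)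
  rw [e1, adjoin.finrank hl, minpoly.algebraMap_eq (algebraMap ℝ ℂ).injective] at hd hne
  obtain ⟨c, hc⟩ := hd
  have c0 : c ≠ 0 := by rintro rfl; omega
  have c1 : c ≠ 1 := by rintro rfl; omega
  nlinarith [show 2 ≤ c by omega]

theorem lam_roots (s : Ix) : (minpoly ℚ (lam s)).natDegree = 2880 ∧
    ∀ x : ℝ, aeval x (minpoly ℤ (lam s)) = 0 ↔ ∃ s', x = lam s' := by
  classical
  have hl : IsIntegral ℚ (lam s) := (lam_int s).tower_top
  have hm : ∀ x, x ∈ ((minpoly ℚ (lam s)).aroots ℝ).toFinset ↔ aeval x (minpoly ℚ (lam s)) = 0 :=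
    fun x => by rw [Multiset.mem_toFinset, mem_aroots, and_iff_right (minpoly.ne_zero hl)]
  have h1 : univ.image lam ⊆ ((minpoly ℚ (lam s)).aroots ℝ).toFinset := by
    intro x hx
    obtain ⟨s', -, rfl⟩ := Finset.mem_image.1 hx
    exact (hm _).2 (lam_conj s s' _ (minpoly.aeval _ _))
  have h2 : (univ.image lam).card = 2880 := by
    rw [Finset.card_image_of_injective _ lam_inj, Finset.card_univ, card_Ix]
  have h3 : ((minpoly ℚ (lam s)).aroots ℝ).toFinset.card ≤ (minpoly ℚ (lam s)).natDegree :=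
    (Multiset.toFinset_card_le _).trans ((card_roots' _).trans natDegree_map_le)
  have h4 := lam_deg_le s
  have h5 := Finset.card_le_card h1
  refine ⟨by omega, fun x => ?_⟩
  have h6 := Finset.eq_of_subset_of_card_le h1 (by omega)
  rw [← aeval_map_algebraMap ℚ, ← minpoly.isIntegrallyClosed_eq_field_fractions' ℚ (lam_int s),
    ← hm, ← h6]
  simp [eq_comm]

theorem cyc_eig (s : Ix) : 1 ≤ maxMult 15015 (lam s) := by
  classical
  let χ := AddChar.zmodChar 15015 (zz_prim s).pow_eq_one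
  have c1 : χ 1 = zz s := by simpa using AddChar.zmodChar_apply' (zz_prim s).pow_eq_one 1
  let G : SimpleGraph (ZMod 15015) :=
    { Adj i j := j = i + 1 ∨ i = j + 1
      symm := ⟨fun _ _ h => h.symm⟩
      loopless := ⟨fun i h => by
        have : (1 : ZMod 15015) = 0 := by rcases h with h | h <;> linear_combination -h
        exact absurd this (by decide)⟩ }
  have := le_maxMult G (n := 15015) (by simp) (l := lam s)
    (LinearMap.toSpanSingleton ℂ (ZMod 15015 → ℂ) χ) (fun u v h => by simpa using congrFun h 0)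
    fun u i => by
      have hne : i + 1 ≠ i + -1 := fun h => by
        have : (2 : ZMod 15015) = 0 := by linear_combination h
        exact absurd this (by decide)
      have key : ∀ (f : ZMod 15015 → ℂ) (_ : DecidablePred (G.Adj i)),
          (∑ j, if G.Adj i j then f j else 0) = f (i + 1) + f (i + -1) := fun f _ => by
        rw [← Finset.sum_filter, show univ.filter (G.Adj i) = {i + 1, i + -1} by
          ext j
          simp only [Finset.mem_filter, mem_univ, true_and, G, Finset.mem_insert,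
            Finset.mem_singleton]
          exact or_congr Iff.rfl ⟨fun h => by rw [h]; ring, fun h => by rw [h]; ring⟩,
          Finset.sum_pair hne]
      refine (key _ fun _ => Classical.propDecidable _).trans ?_
      rw [lam_coe]
      simp only [LinearMap.toSpanSingleton_apply, Pi.smul_apply, smul_eq_mul,
        AddChar.map_add_eq_mul, AddChar.map_neg_eq_conj, c1]
      ring
  simpa using this

theorem cos_eq : ∃ s, 2 * Real.cos (2 * Real.pi / 15015) = lam s := by
  let s : Ix := (⟨1, by decide⟩, ⟨1, by decide⟩, ⟨1, by decide⟩, ⟨1, by decide⟩)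
  have hz := Complex.isPrimitiveRoot_exp 15015 (by norm_num)
  have e : 2 * (Real.pi : ℂ) * Complex.I / (15015 : ℕ) =
      (2 * Real.pi / 15015 : ℝ) * Complex.I := by push_cast; ring
  rw [e] at hz
  have h1 := Complex.mul_conj (Complex.exp ((2 * Real.pi / 15015 : ℝ) * Complex.I))
  rw [Complex.normSq_eq_norm_sq, Complex.norm_exp_ofReal_mul_I, one_pow, Complex.ofReal_one] at h1
  have h2 := Complex.add_conj (Complex.exp ((2 * Real.pi / 15015 : ℝ) * Complex.I))
  rw [Complex.exp_ofReal_mul_I_re] at h2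
  refine ((lam_roots s).2 _).1 ?_
  rw [← aeval_map_algebraMap ℚ, ← minpoly.isIntegrallyClosed_eq_field_fractions' ℚ (lam_int s)]
  refine (prim_aeval hz ?_ _).2 ((lam_aeval s _).1 (minpoly.aeval _ _))
  rw [← h2]
  generalize Complex.exp _ = z at hz h1
  linear_combination z ^ 15014 * h1 - conj z * hz.pow_eq_one

theorem loggap_main (s : Ix) : IsIntegral ℤ (lam s) ∧ (minpoly ℚ (lam s)).natDegree = 2880 ∧
    (∃ (k : ℕ) (G : SimpleGraph (Fin k)), 0 < mult G (lam s)) ∧ ∃ c : ℝ, 0 < c ∧ ∀ n : ℕ, 2 ≤ n →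
      (maxMult n (lam s) : ℝ) ≤ n / 2880 - c * (n / Real.log n) := by
  refine ⟨lam_int s, (lam_roots s).1, ?_, ?_⟩
  · obtain ⟨G, hG⟩ := max_attained 15015 (lam s)
    exact ⟨_, G, hG ▸ cyc_eig s⟩
  · have := gap lam s lam_conj _ (lam_roots s).2 (fun k => dickson 1 (1 : ℤ) (ex k)) MM
      (fun _ _ => rfl) MM_ne (by
        rw [MM_det, card_Ix, show 2880 = 60 * 48 from rfl, pow_mul]
        exact pow_lt_pow_left₀ (by norm_num) (by positivity) (by norm_num))
    rw [card_Ix] at this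
    exact_mod_cast this

theorem disc_gap (l : ℝ) (hl : IsIntegral ℤ l) (d : ℕ) (hd : (minpoly ℚ l).natDegree = d)
    (r : Fin d → ℝ) (hr : Function.Injective r) (h0 : ∀ i, aeval (r i) (minpoly ℚ l) = 0)
    (h1 : ∏ i, ∏ j ∈ Finset.Ioi i, (r j - r i) ^ 2 < (d : ℝ) ^ d) :
    ∃ c : ℝ, 0 < c ∧ ∀ n : ℕ, 2 ≤ n → (maxMult n l : ℝ) ≤ n / d - c * (n / Real.log n) := by
  classical
  have hq : IsIntegral ℚ l := hl.tower_top
  have hm : ∀ x, x ∈ ((minpoly ℚ l).aroots ℝ).toFinset ↔ aeval x (minpoly ℚ l) = 0 :=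
    fun x => by rw [Multiset.mem_toFinset, mem_aroots, and_iff_right (minpoly.ne_zero hq)]
  have h2 : univ.image r = ((minpoly ℚ l).aroots ℝ).toFinset := by
    refine Finset.eq_of_subset_of_card_le (fun x hx => ?_) ?_
    · obtain ⟨i, -, rfl⟩ := Finset.mem_image.1 hx
      exact (hm _).2 (h0 i)
    · rw [Finset.card_image_of_injective _ hr, Finset.card_univ, Fintype.card_fin, ← hd]
      exact (Multiset.toFinset_card_le _).trans ((card_roots' _).trans natDegree_map_le)
  have hP : ∀ x : ℝ, aeval x (minpoly ℚ l) = 0 ↔ ∃ i, x = r i := fun x => by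
    rw [← hm, ← h2]; simp [eq_comm]
  have hmin : ∀ i, minpoly ℚ (r i) = minpoly ℚ l := fun i =>
    (minpoly.eq_of_irreducible_of_monic (minpoly.irreducible hq) (h0 i) (minpoly.monic hq)).symm
  obtain ⟨s, hs⟩ := (hP l).1 (minpoly.aeval _ _)
  have := gap r s (fun i j q h => by
      rw [← minpoly.dvd_iff, hmin] at h ⊢; exact h) (minpoly ℤ l) (fun x => by
      rw [← aeval_map_algebraMap ℚ, ← minpoly.isIntegrallyClosed_eq_field_fractions' ℚ hl, hP])
    (fun k => X ^ (k : ℕ)) (vandermonde r)ᵀ (fun k i => by simp [vandermonde_apply])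
    (by rw [Matrix.det_transpose]; exact det_vandermonde_ne_zero_iff.2 hr) (by
      rw [Matrix.det_transpose, det_vandermonde, Fintype.card_fin, ← Finset.prod_pow]
      simpa only [← Finset.prod_pow] using h1)
  rwa [Fintype.card_fin, ← hs] at this

end Pool.Agent.P.MP_4bb7d7_co
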