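import Pool.Agent.P.MP_4bb7d7_co.Spec

namespace Pool.Agent.P.MP_4bb7d7_co

open Matrix Finset Polynomial Real goldenRatio

noncomputable def gp : ℚ[X] := X ^ 2 - X - 1

theorem gp_monic : gp.Monic := by unfold gp; monicity!

theorem gp_natDegree : gp.natDegree = 2 := by unfold gp; compute_degree!

theorem aeval_gp {x : ℝ} (h : x ^ 2 = x + 1) : aeval x gp = 0 := by
  simp [gp, h]

theorem minpoly_eq {x : ℝ} (h : x ^ 2 = x + 1) (hx : Irrational x) : minpoly ℚ x = gp := by
  symm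
  refine minpoly.eq_of_irreducible_of_monic ?_ (aeval_gp h) gp_monic
  have hint : IsIntegral ℚ x := ⟨gp, gp_monic, aeval_gp h⟩
  have h1 : minpoly ℚ x ∣ gp := minpoly.dvd ℚ x (aeval_gp h)
  have h2 : 2 ≤ (minpoly ℚ x).natDegree :=
    (minpoly.two_le_natDegree_iff hint).2 fun ⟨q, hq⟩ => hx ⟨q, hq⟩
  have : gp = minpoly ℚ x :=
    Polynomial.eq_of_monic_of_dvd_of_natDegree_le (minpoly.monic hint) gp_monic h1
      (by rw [gp_natDegree]; exact h2)
  rw [this]
  exact minpoly.irreducible hint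

theorem conj_root (q : ℚ[X]) (h : aeval φ q = 0) : aeval ψ q = 0 := by
  have h1 := minpoly.dvd ℚ φ h
  rw [minpoly_eq goldenRatio_sq goldenRatio_irrational] at h1
  obtain ⟨s, rfl⟩ := h1
  rw [map_mul, aeval_gp goldenConj_sq, zero_mul]

theorem rootMult_le (q : ℚ[X]) (hq : q ≠ 0) :
    (q.map (algebraMap ℚ ℝ)).rootMultiplicity φ ≤ (q.map (algebraMap ℚ ℝ)).rootMultiplicity ψ := by
  have hq' : q.map (algebraMap ℚ ℝ) ≠ 0 := Polynomial.map_ne_zero hq
  refine le_of_forall_lt fun k hk => ?_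
  rw [Polynomial.lt_rootMultiplicity_iff_isRoot_iterate_derivative hq'] at hk ⊢
  intro m hm
  have := hk m hm
  rw [Polynomial.iterate_derivative_map, Polynomial.IsRoot, Polynomial.eval_map_algebraMap]
    at this ⊢
  exact conj_root _ this

theorem count_eq {n : Type} [Fintype n] [DecidableEq n] {A : Matrix n n ℝ} (hA : A.IsHermitian)
    (x : ℝ) : A.charpoly.rootMultiplicity x = (univ.filter fun k => hA.eigenvalues k = x).card := by
  classical
  rw [← Polynomial.count_roots, hA.roots_charpoly_eq_eigenvalues, Multiset.count_map]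
  simp only [Finset.card, Finset.filter_val]
  congr 1
  exact Multiset.filter_congr fun k _ => by simp [eq_comm]

theorem mult_bound {n : ℕ} (G : SimpleGraph (Fin n)) :
    ∃ M : ℕ, mult G (φ : ℝ) ≤ M ∧ 2 * M ≤ n ∧
      (M : ℝ) ≤ 27 * (((n : ℝ) - 2 * M) ^ 2 + (n - 2 * M)) := by
  classical
  have hA : (G.adjMatrix ℝ).IsHermitian := by
    ext i j; simp [SimpleGraph.adj_comm]
  have hR : G.adjMatrix ℝ = (G.adjMatrix ℚ).map (algebraMap ℚ ℝ) := by
    ext i j; by_cases h : G.Adj i j <;> simp [h]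
  have hC : G.adjMatrix ℂ = (G.adjMatrix ℝ).map (algebraMap ℝ ℂ) := by
    ext i j; by_cases h : G.Adj i j <;> simp [h]
  let S := univ.filter fun k => hA.eigenvalues k = φ
  let S' := univ.filter fun k => hA.eigenvalues k = ψ
  have h1 : mult G (φ : ℝ) ≤ S.card := by
    unfold mult
    refine (LinearMap.finrank_eigenspace_le _ _).trans ?_
    rw [Matrix.charpoly_toLin', ← count_eq hA]
    have : (G.adjMatrix ℂ).charpoly = (G.adjMatrix ℝ).charpoly.map (algebraMap ℝ ℂ) := by
      rw [hC, Matrix.charpoly_map]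
    rw [Polynomial.eq_rootMultiplicity_map (p := (G.adjMatrix ℝ).charpoly)
      (algebraMap ℝ ℂ).injective φ, ← this]
    exact le_rfl
  have h2 : S.card ≤ S'.card := by
    rw [← count_eq hA, ← count_eq hA, hR, Matrix.charpoly_map]
    exact rootMult_le _ (Matrix.charpoly_monic _).ne_zero
  obtain ⟨S'', hS'', hc⟩ := Finset.exists_subset_card_eq h2
  have hne : φ ≠ ψ := by linarith [goldenRatio_pos, goldenConj_neg, (by positivity : (0:ℝ) < φ)]
  have hdisj : Disjoint S S'' := by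
    rw [Finset.disjoint_left]
    intro k hk hk'
    exact hne ((Finset.mem_filter.1 hk).2.symm.trans (Finset.mem_filter.1 (hS'' hk')).2)
  have hcard : (S ∪ S'').card = 2 * S.card := by
    rw [Finset.card_union_of_disjoint hdisj, hc]; ring
  have hle : 2 * S.card ≤ n := by
    rw [← hcard]; simpa using Finset.card_le_univ (S ∪ S'')
  have hT : (((S ∪ S'')ᶜ).card : ℝ) = n - 2 * S.card := by
    rw [Finset.card_compl, hcard, Fintype.card_fin, Nat.cast_sub hle]; push_cast; ring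
  have hsum : ∀ f : ℝ → ℝ, ∑ k ∈ S ∪ S'', f (hA.eigenvalues k) = S.card * (f φ + f ψ) := by
    intro f
    rw [Finset.sum_union hdisj, Finset.sum_congr rfl (g := fun _ => f φ)
      (fun k hk => by rw [(Finset.mem_filter.1 hk).2]), Finset.sum_congr (s₁ := S'') rfl
      (g := fun _ => f ψ) (fun k hk => by rw [(Finset.mem_filter.1 (hS'' hk)).2])]
    simp [hc]; ring
  have e1 : ∑ k ∈ S ∪ S'', hA.eigenvalues k = S.card := by
    rw [hsum fun x => x]; simp
  have e2 : ∑ k ∈ S ∪ S'', hA.eigenvalues k ^ 2 = S.card * 3 := by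
    rw [hsum (· ^ 2)]
    congr 1
    simp only [goldenRatio_sq, goldenConj_sq]
    linarith [goldenRatio_add_goldenConj]
  have hk := key hA (fun i j => by by_cases h : G.Adj i j <;> simp [h]) (fun i => by simp)
    (S ∪ S'')ᶜ (fun k hk => by
      rw [Finset.notMem_compl] at hk
      rcases Finset.mem_union.1 hk with h | h
      · rw [(Finset.mem_filter.1 h).2, abs_le]
        constructor <;> linarith [goldenRatio_pos, goldenRatio_lt_two]
      · rw [(Finset.mem_filter.1 (hS'' h)).2, abs_le]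
        constructor <;> linarith [goldenConj_neg, neg_one_lt_goldenConj])
    (by rw [compl_compl, e1]; positivity)
  rw [compl_compl, e1, e2, hT] at hk
  refine ⟨S.card, h1, hle, ?_⟩
  have ht : (0 : ℝ) ≤ n - 2 * S.card := by rw [← hT]; positivity
  rcases Nat.eq_zero_or_pos S.card with h0 | h0
  · rw [h0] at ht ⊢; push_cast at ht ⊢; positivity
  · have : (0 : ℝ) < S.card := by exact_mod_cast h0
    refine le_of_mul_le_mul_left ?_ this
    nlinarith

theorem mult_le {n : ℕ} (hn : 144 ≤ n) (G : SimpleGraph (Fin n)) :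
    (mult G (φ : ℝ) : ℝ) ≤ n / 2 - 1 / 20 * √n := by
  obtain ⟨M, h1, h2, h3⟩ := mult_bound G
  have h1' : (mult G (φ : ℝ) : ℝ) ≤ M := by exact_mod_cast h1
  refine h1'.trans ?_
  by_contra hc
  have hc := not_le.1 hc
  have h2' : (2 * M : ℝ) ≤ n := by exact_mod_cast h2
  have hs : √(n : ℝ) * √n = n := Real.mul_self_sqrt (Nat.cast_nonneg n)
  have h12 : 12 ≤ √(n : ℝ) := by
    apply Real.le_sqrt_of_sq_le
    have : (144 : ℝ) ≤ n := by exact_mod_cast hn
    linarith
  set s := √(n : ℝ)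
  set t := (n : ℝ) - 2 * M
  have ht0 : 0 ≤ t := by simp only [t]; linarith
  have ht1 : t ≤ s / 10 := by simp only [t]; linarith
  have ht2 : t ^ 2 ≤ (s / 10) ^ 2 := by gcongr
  nlinarith

theorem path_mult : 0 < mult (SimpleGraph.pathGraph 4) (φ : ℝ) := by
  unfold mult
  apply Module.finrank_pos_iff_exists_ne_zero.2
  have hsq : ((φ : ℝ) : ℂ) * (φ : ℝ) = (φ : ℝ) + 1 := by
    rw [← sq]; exact_mod_cast goldenRatio_sq
  refine ⟨⟨![1, (φ : ℝ), (φ : ℝ), 1], ?_⟩, ?_⟩
  · rw [Module.End.mem_eigenspace_iff, Matrix.toLin'_apply]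
    generalize ((φ : ℝ) : ℂ) = x at hsq ⊢
    funext i
    fin_cases i <;>
      simp [Matrix.mulVec, dotProduct, Fin.sum_univ_four, SimpleGraph.adjMatrix_apply,
        SimpleGraph.pathGraph_adj, hsq, add_comm]
  · intro h
    have := congrFun (congrArg Subtype.val h) 0
    simp at this

theorem main : ∃ l : ℝ, IsIntegral ℤ l ∧ 2 ≤ (minpoly ℚ l).natDegree ∧
    (∃ (k : ℕ) (G : SimpleGraph (Fin k)), 0 < mult G l) ∧
    ∃ c : ℝ, 0 < c ∧ ∃ n₀ : ℕ, ∀ n ≥ n₀,
      (maxMult n l : ℝ) ≤ n / (minpoly ℚ l).natDegree - c * √n := by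
  have hm : (minpoly ℚ φ).natDegree = 2 := by
    rw [minpoly_eq goldenRatio_sq goldenRatio_irrational, gp_natDegree]
  refine ⟨φ, ⟨X ^ 2 - X - 1, by monicity!, by simp [goldenRatio_sq]⟩, hm.ge,
    ⟨4, _, path_mult⟩, 1 / 20, by norm_num, 144, fun n hn => ?_⟩
  obtain ⟨G, -, hG⟩ := Finset.exists_mem_eq_sup (univ : Finset (SimpleGraph (Fin n)))
    Finset.univ_nonempty fun G => mult G (φ : ℝ)
  rw [maxMult, hG, hm]
  exact_mod_cast mult_le hn G

end Pool.Agent.P.MP_4bb7d7_co
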