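import Pool.Agent.P.MP_4bb7d7_co.Main

namespace Pool.Agent.P.MP_4bb7d7_co

open Matrix Finset Polynomial

section
variable {n : Type} [Fintype n] [DecidableEq n]

theorem entry_bound' {u : n → n → ℝ} (h2 : ∀ i j, ∑ k, u i k * u j k = if i = j then 1 else 0)
    (b : n → ℝ) {M : ℝ} (hb : ∀ k, |b k| ≤ M) (i j : n) : |∑ k, b k * (u i k * u j k)| ≤ M := by
  calc |∑ k, b k * (u i k * u j k)| ≤ ∑ k, |b k * (u i k * u j k)| := Finset.abs_sum_le_sum_abs _ _
    _ ≤ ∑ k, M / 2 * (u i k * u i k + u j k * u j k) := by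
        refine Finset.sum_le_sum fun k _ => ?_
        rw [abs_mul, abs_mul, ← abs_mul_abs_self (u i k), ← abs_mul_abs_self (u j k)]
        have h := mul_le_mul_of_nonneg_right (hb k)
          (mul_nonneg (abs_nonneg (u i k)) (abs_nonneg (u j k)))
        have h' := mul_nonneg ((abs_nonneg _).trans (hb k)) (sq_nonneg (|u i k| - |u j k|))
        nlinarith
    _ = M := by rw [← Finset.mul_sum, Finset.sum_add_distrib, h2, h2]; norm_num

/-- The key inequality with a tangent line. -/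
theorem key' {A : Matrix n n ℝ} (hA : A.IsHermitian) (h01 : ∀ i j, A i j = 0 ∨ A i j = 1)
    (hd : ∀ i, A i i = 0) (T : Finset n) {M α τ : ℝ} (hM : 0 ≤ M)
    (hb : ∀ k ∉ T, |hA.eigenvalues k| ≤ M) (h0 : 0 ≤ τ)
    (hτ : τ ≤ (2 * α + 1) * ∑ k ∈ Tᶜ, hA.eigenvalues k - α ^ 2 * Fintype.card n) :
    τ ^ 2 ≤ ((T.card : ℝ) ^ 2 + T.card) * ((M + 1) ^ 2 * (Fintype.card n * M ^ 2)) := by
  obtain ⟨u, h1, h2, h3⟩ := spec_entries hA
  set μ := hA.eigenvalues
  let b : n → ℝ := fun k => if k ∈ T then 0 else μ k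
  let B : n → n → ℝ := fun i j => ∑ k, b k * (u i k * u j k)
  let R : n → n → ℝ := fun i j => ∑ k : T, μ k * (u i k * u j k)
  have hAB : ∀ i j, R i j = A i j - B i j := by
    intro i j
    rw [h1, eq_sub_iff_add_eq]
    simp only [R, B]
    rw [Finset.sum_coe_sort T fun k => μ k * (u i k * u j k)]
    rw [← Finset.sum_add_sum_compl T (f := fun k => μ k * (u i k * u j k)),
      ← Finset.sum_add_sum_compl T (f := fun k => b k * (u i k * u j k))]
    rw [Finset.sum_eq_zero (s := T) (f := fun k => b k * (u i k * u j k))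
      (fun k hk => by simp [b, hk]), zero_add]
    congr 1
    exact Finset.sum_congr rfl fun k hk => by simp [b, Finset.mem_compl.1 hk]
  let X : Matrix n ((T × T) ⊕ T) ℝ := Matrix.of fun i c =>
    match c with
    | .inl (k, l) => μ k * μ l * (u i k * u i l)
    | .inr k => -(μ k * u i k)
  let Y : Matrix ((T × T) ⊕ T) n ℝ := Matrix.of fun c j =>
    match c with
    | .inl (k, l) => u j k * u j l
    | .inr k => u j k
  have hN : ∀ i j, (X * Y) i j = R i j ^ 2 - R i j := by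
    intro i j
    simp only [Matrix.mul_apply, Fintype.sum_sum_type, Fintype.sum_prod_type, X, Y, R,
      Matrix.of_apply]
    rw [sq, Finset.sum_mul_sum, sub_eq_add_neg, ← Finset.sum_neg_distrib]
    congr 1
    · exact Finset.sum_congr rfl fun k _ => Finset.sum_congr rfl fun l _ => by ring
    · exact Finset.sum_congr rfl fun k _ => by ring
  have hsym : (X * Y).IsHermitian := by
    ext i j
    rw [Matrix.conjTranspose_apply, star_trivial, hN, hN]
    have : R j i = R i j := Finset.sum_congr rfl fun k _ => by ring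
    rw [this]
  have hrank : ((X * Y).rank : ℝ) ≤ (T.card : ℝ) ^ 2 + T.card := by
    have := (Matrix.rank_mul_le_left X Y).trans (Matrix.rank_le_card_width X)
    simp only [Fintype.card_sum, Fintype.card_prod, Fintype.card_coe] at this
    rw [sq]; exact_mod_cast this
  have hb' : ∀ k, |b k| ≤ M := fun k => by
    by_cases hk : k ∈ T
    · simpa [b, hk] using hM
    · simpa [b, hk] using hb k hk
  have hBb : ∀ i j, |B i j| ≤ M := entry_bound' h2 b hb'
  have hsb : ∑ k, b k = ∑ k ∈ Tᶜ, μ k := by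
    rw [← Finset.sum_add_sum_compl T, Finset.sum_eq_zero (s := T) (fun k hk => by simp [b, hk]),
      zero_add]
    exact Finset.sum_congr rfl fun k hk => by simp [b, Finset.mem_compl.1 hk]
  have hsb2 : ∑ k, b k ^ 2 ≤ Fintype.card n * M ^ 2 := by
    have := Finset.sum_le_card_nsmul univ (fun k => b k ^ 2) (M ^ 2) fun k _ =>
      sq_le_sq' (abs_le.1 (hb' k)).1 (abs_le.1 (hb' k)).2
    simpa using this
  have htr : τ ≤ ∑ i, (X * Y) i i := by
    refine hτ.trans ?_
    have : α ^ 2 * Fintype.card n = ∑ _i : n, α ^ 2 := by simp [mul_comm]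
    rw [← hsb, ← trace_form h3 b, this, Finset.mul_sum, ← Finset.sum_sub_distrib]
    refine Finset.sum_le_sum fun i _ => ?_
    rw [hN, hAB, hd]
    show (2 * α + 1) * B i i - _ ≤ _
    nlinarith [sq_nonneg (B i i - α)]
  have hfr : ∑ i, ∑ j, (X * Y) i j ^ 2 ≤ (M + 1) ^ 2 * (Fintype.card n * M ^ 2) := by
    refine le_trans ?_ (mul_le_mul_of_nonneg_left hsb2 (sq_nonneg _))
    rw [← frob h3 b, Finset.mul_sum]
    refine Finset.sum_le_sum fun i _ => ?_
    rw [Finset.mul_sum]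
    refine Finset.sum_le_sum fun j _ => ?_
    rw [hN, hAB]
    show _ ≤ (M + 1) ^ 2 * B i j ^ 2
    obtain ⟨h4, h5⟩ := abs_le.1 (hBb i j)
    rcases h01 i j with h | h
    · rw [h]
      have : ((0 - B i j) ^ 2 - (0 - B i j)) ^ 2 = (B i j + 1) ^ 2 * B i j ^ 2 := by ring
      rw [this]
      exact mul_le_mul_of_nonneg_right (sq_le_sq' (by linarith) (by linarith)) (sq_nonneg _)
    · rw [h]
      have : ((1 - B i j) ^ 2 - (1 - B i j)) ^ 2 = (B i j - 1) ^ 2 * B i j ^ 2 := by ring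
      rw [this]
      exact mul_le_mul_of_nonneg_right (sq_le_sq' (by linarith) (by linarith)) (sq_nonneg _)
  calc τ ^ 2 ≤ (∑ i, (X * Y) i i) ^ 2 := by gcongr
    _ ≤ (X * Y).rank * ∑ i, ∑ j, (X * Y) i j ^ 2 := trace_sq_le hsym
    _ ≤ _ := by
      refine mul_le_mul hrank hfr ?_ (by positivity)
      exact Finset.sum_nonneg fun i _ => Finset.sum_nonneg fun j _ => sq_nonneg _

end

/-- a quadratic integer satisfies an integral equation with the trace as linear coefficient -/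
theorem quad_data {l : ℝ} (hl : IsIntegral ℤ l) (hd : (minpoly ℚ l).natDegree = 2) :
    ∃ s r : ℤ, -(minpoly ℚ l).coeff 1 = s ∧ l ^ 2 = s * l + r ∧ (∀ q : ℚ, l ≠ q) ∧
      ∀ q : ℚ[X], aeval l q = 0 → aeval (s - l) q = 0 := by
  have hq : IsIntegral ℚ l := hl.tower_top
  have e := minpoly.isIntegrallyClosed_eq_field_fractions' ℚ hl
  have ev : ∀ x : ℝ, aeval x (minpoly ℚ l) =
      x ^ 2 + (minpoly ℤ l).coeff 1 * x + (minpoly ℤ l).coeff 0 := fun x => by
    have h2 : (minpoly ℚ l).coeff 2 = 1 := hd ▸ (minpoly.monic hq).coeff_natDegree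
    rw [aeval_eq_sum_range, hd]
    simp only [Finset.sum_range_succ, Finset.sum_range_zero, h2]
    rw [e]
    simp [Rat.smul_def]
    ring
  have h0 := minpoly.aeval ℚ l
  rw [ev] at h0
  refine ⟨-(minpoly ℤ l).coeff 1, -(minpoly ℤ l).coeff 0, by rw [e]; simp, ?_,
    fun q h => (minpoly.two_le_natDegree_iff hq).1 hd.ge ⟨q, h.symm⟩, fun q h => ?_⟩
  · push_cast
    linarith
  · obtain ⟨g, rfl⟩ := minpoly.dvd ℚ l h
    rw [map_mul, ev]
    push_cast
    rw [mul_eq_zero]
    left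
    linear_combination h0

theorem mult_pair {n : ℕ} (G : SimpleGraph (Fin n)) {l l' : ℝ} (hne : l ≠ l')
    (hc : ∀ q : ℚ[X], aeval l q = 0 → aeval l' q = 0) :
    ∃ m : ℕ, mult G l ≤ m ∧ 2 * m ≤ n ∧ ∀ α τ : ℝ, 0 ≤ τ →
      τ ≤ (2 * α + 1) * (m * (l + l')) - α ^ 2 * n →
      τ ^ 2 ≤ (((n : ℝ) - 2 * m) ^ 2 + (n - 2 * m)) *
        ((|l| + |l'| + 1) ^ 2 * (n * (|l| + |l'|) ^ 2)) := by
  classical
  have hA : (G.adjMatrix ℝ).IsHermitian := by
    ext i j; simp [SimpleGraph.adj_comm]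
  have hR : G.adjMatrix ℝ = (G.adjMatrix ℚ).map (algebraMap ℚ ℝ) := by
    ext i j; by_cases h : G.Adj i j <;> simp [h]
  have hC : G.adjMatrix ℂ = (G.adjMatrix ℝ).map (algebraMap ℝ ℂ) := by
    ext i j; by_cases h : G.Adj i j <;> simp [h]
  let S := univ.filter fun k => hA.eigenvalues k = l
  let S' := univ.filter fun k => hA.eigenvalues k = l'
  have h1 : mult G l ≤ S.card := by
    unfold mult
    refine (LinearMap.finrank_eigenspace_le _ _).trans ?_
    rw [Matrix.charpoly_toLin', ← count_eq hA]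
    have : (G.adjMatrix ℂ).charpoly = (G.adjMatrix ℝ).charpoly.map (algebraMap ℝ ℂ) := by
      rw [hC, Matrix.charpoly_map]
    rw [Polynomial.eq_rootMultiplicity_map (p := (G.adjMatrix ℝ).charpoly)
      (algebraMap ℝ ℂ).injective l, ← this]
    exact le_rfl
  have h2 : S.card ≤ S'.card := by
    rw [← count_eq hA, ← count_eq hA, hR, Matrix.charpoly_map]
    have hq' := Polynomial.map_ne_zero (f := algebraMap ℚ ℝ) (G.adjMatrix ℚ).charpoly_monic.ne_zero
    refine le_of_forall_lt fun k hk => ?_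
    rw [Polynomial.lt_rootMultiplicity_iff_isRoot_iterate_derivative hq'] at hk ⊢
    intro m hm
    have := hk m hm
    rw [Polynomial.iterate_derivative_map, Polynomial.IsRoot, Polynomial.eval_map_algebraMap]
      at this ⊢
    exact hc _ this
  obtain ⟨S'', hS'', hc⟩ := Finset.exists_subset_card_eq h2
  have hdisj : Disjoint S S'' := by
    rw [Finset.disjoint_left]
    intro k hk hk'
    exact hne ((Finset.mem_filter.1 hk).2.symm.trans (Finset.mem_filter.1 (hS'' hk')).2)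
  have hcard : (S ∪ S'').card = 2 * S.card := by
    rw [Finset.card_union_of_disjoint hdisj, hc]; ring
  have hle : 2 * S.card ≤ n := by
    rw [← hcard]; simpa using Finset.card_le_univ (S ∪ S'')
  have hT : (((S ∪ S'')ᶜ).card : ℝ) = n - 2 * S.card := by
    rw [Finset.card_compl, hcard, Fintype.card_fin, Nat.cast_sub hle]; push_cast; ring
  have e1 : ∑ k ∈ S ∪ S'', hA.eigenvalues k = S.card * (l + l') := by
    rw [Finset.sum_union hdisj, Finset.sum_congr rfl (g := fun _ => l)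
      (fun k hk => (Finset.mem_filter.1 hk).2), Finset.sum_congr (s₁ := S'') rfl
      (g := fun _ => l') (fun k hk => (Finset.mem_filter.1 (hS'' hk)).2)]
    simp [hc]; ring
  refine ⟨S.card, h1, hle, fun α τ h0 hτ => ?_⟩
  have hk := key' hA (fun i j => by by_cases h : G.Adj i j <;> simp [h]) (fun i => by simp)
    (S ∪ S'')ᶜ (M := |l| + |l'|) (α := α) (by positivity) (fun k hk => by
      rw [Finset.notMem_compl] at hk
      rcases Finset.mem_union.1 hk with h | h
      · rw [(Finset.mem_filter.1 h).2]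
        exact le_add_of_nonneg_right (abs_nonneg _)
      · rw [(Finset.mem_filter.1 (hS'' h)).2]
        exact le_add_of_nonneg_left (abs_nonneg _)) h0
    (by rwa [compl_compl, e1, Fintype.card_fin])
  rwa [hT, Fintype.card_fin] at hk

theorem max_attained (n : ℕ) (l : ℂ) : ∃ G : SimpleGraph (Fin n), maxMult n l = mult G l := by
  obtain ⟨G, -, hG⟩ := Finset.exists_mem_eq_sup (univ : Finset (SimpleGraph (Fin n)))
    Finset.univ_nonempty fun G => mult G l
  exact ⟨G, hG⟩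

theorem upper_half {l l' : ℝ} (hne : l ≠ l') (hc : ∀ q : ℚ[X], aeval l q = 0 → aeval l' q = 0)
    (n : ℕ) : (maxMult n l : ℝ) ≤ n / 2 := by
  obtain ⟨G, hG⟩ := max_attained n l
  obtain ⟨m, h1, h2, -⟩ := mult_pair G hne hc
  have : ((2 * maxMult n l : ℕ) : ℝ) ≤ n := Nat.cast_le.2 (by omega)
  push_cast at this
  linarith

theorem upper_sqrt {l l' : ℝ} (hne : l ≠ l') (hc : ∀ q : ℚ[X], aeval l q = 0 → aeval l' q = 0)
    (hs : 1 ≤ l + l' ∨ l + l' ≤ -3) : ∃ c : ℝ, 0 < c ∧ ∀ n : ℕ,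
      (maxMult n l : ℝ) ≤ n / 2 - c * √n := by
  obtain ⟨K, hK⟩ : ∃ K : ℝ, K = (|l| + |l'| + 1) ^ 2 := ⟨_, rfl⟩
  have K1 : 1 ≤ K := by rw [hK]; nlinarith [abs_nonneg l, abs_nonneg l']
  refine ⟨1 / (24 * K), by positivity, fun n => ?_⟩
  obtain ⟨G, hG⟩ := max_attained n l
  obtain ⟨m, h1, h2, h3⟩ := mult_pair G hne hc
  rw [hG]
  refine (Nat.cast_le.2 h1).trans ?_
  obtain ⟨t, rfl⟩ := Nat.exists_eq_add_of_le h2
  have m0 : (0 : ℝ) ≤ m := Nat.cast_nonneg _
  have t0 : (0 : ℝ) ≤ t := Nat.cast_nonneg _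
  have tt : (t : ℝ) ≤ t ^ 2 := by exact_mod_cast Nat.le_self_pow two_ne_zero t
  have key : ((2 * m + t : ℕ) : ℝ) ≤ (12 * K * t) ^ 2 := by
    push_cast at h3 ⊢
    have KK : (1 : ℝ) ≤ K ^ 2 := one_le_pow₀ K1
    rcases le_or_gt (2 * m + t : ℝ) (12 * t) with h | h
    · nlinarith [mul_le_mul_of_nonneg_right KK (sq_nonneg (t : ℝ))]
    have n0 : (0 : ℝ) < 2 * m + t := by linarith
    have h4 : ((2 * m + t) / 4 : ℝ) ^ 2 ≤ ((2 * m + t - 2 * m) ^ 2 + (2 * m + t - 2 * m)) *
        ((|l| + |l'| + 1) ^ 2 * ((2 * m + t) * (|l| + |l'|) ^ 2)) := by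
      rcases hs with hs | hs
      · exact h3 0 _ (by positivity) (by nlinarith [mul_le_mul_of_nonneg_left hs m0])
      · exact h3 (-3 / 2) _ (by positivity) (by nlinarith [mul_le_mul_of_nonneg_left hs m0])
    have h5 : (|l| + |l'|) ^ 2 ≤ K := by rw [hK]; nlinarith [abs_nonneg l, abs_nonneg l']
    rw [← hK, add_sub_cancel_left] at h4
    have h6 : ((t : ℝ) ^ 2 + t) * (K * ((2 * m + t) * (|l| + |l'|) ^ 2)) ≤
        (t ^ 2 + t ^ 2) * (K * ((2 * m + t) * K)) := by gcongr
    refine le_of_mul_le_mul_left ?_ n0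
    nlinarith [mul_nonneg n0.le (sq_nonneg (K * t))]
  have h7 : √((2 * m + t : ℕ) : ℝ) ≤ 12 * K * t := Real.sqrt_le_iff.2 ⟨by positivity, key⟩
  have h8 := mul_le_mul_of_nonneg_left h7 (show 0 ≤ 1 / (24 * K) by positivity)
  have h9 : 1 / (24 * K) * (12 * K * t) = t / 2 := by field_simp; ring
  push_cast at h8 ⊢
  linarith

end Pool.Agent.P.MP_4bb7d7_co
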