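import Pool.Agent.P.MP_4bb7d7_co.Defs

namespace Pool.Agent.P.MP_4bb7d7_co

open Matrix Finset

variable {n : Type} [Fintype n] [DecidableEq n]

theorem spec_entries {A : Matrix n n ℝ} (hA : A.IsHermitian) :
    ∃ u : n → n → ℝ, (∀ i j, A i j = ∑ k, hA.eigenvalues k * (u i k * u j k)) ∧
      (∀ i j, ∑ k, u i k * u j k = if i = j then 1 else 0) ∧
      (∀ k l, ∑ i, u i k * u i l = if k = l then 1 else 0) := by
  let U : Matrix n n ℝ := (hA.eigenvectorUnitary : Matrix n n ℝ)
  have h1 : U * star U = 1 := (Matrix.mem_unitaryGroup_iff).1 hA.eigenvectorUnitary.2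
  have h2 : star U * U = 1 := (Matrix.mem_unitaryGroup_iff').1 hA.eigenvectorUnitary.2
  refine ⟨fun i k => U i k, fun i j => ?_, fun i j => ?_, fun k l => ?_⟩
  · have := hA.spectral_theorem
    rw [Unitary.conjStarAlgAut_apply] at this
    conv_lhs => rw [this]
    simp only [Matrix.mul_apply, Matrix.diagonal_apply, Matrix.star_apply, star_trivial,
      mul_ite, mul_zero, Finset.sum_ite_eq', Finset.mem_univ, if_true, U]
    refine Finset.sum_congr rfl fun k _ => ?_
    simp only [Function.comp, RCLike.ofReal_real_eq_id, id]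
    ring
  · have := congrFun (congrFun h1 i) j
    simpa [Matrix.mul_apply, Matrix.one_apply] using this
  · have := congrFun (congrFun h2 k) l
    simpa [Matrix.mul_apply, Matrix.one_apply] using this

theorem frob {u : n → n → ℝ} (h3 : ∀ k l, ∑ i, u i k * u i l = if k = l then 1 else 0)
    (b : n → ℝ) : ∑ i, ∑ j, (∑ k, b k * (u i k * u j k)) ^ 2 = ∑ k, b k ^ 2 := by
  have : ∀ i j, (∑ k, b k * (u i k * u j k)) ^ 2 =
      ∑ k, ∑ l, b k * b l * ((u i k * u i l) * (u j k * u j l)) := by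
    intro i j
    rw [sq, Finset.sum_mul_sum]
    exact Finset.sum_congr rfl fun k _ => Finset.sum_congr rfl fun l _ => by ring
  simp only [this]
  calc ∑ i, ∑ j, ∑ k, ∑ l, b k * b l * ((u i k * u i l) * (u j k * u j l))
      = ∑ k, ∑ l, ∑ i, ∑ j, b k * b l * ((u i k * u i l) * (u j k * u j l)) := by
        simp only [← Finset.sum_product']
        exact Finset.sum_equiv
          (⟨fun p => (p.2.2.1, p.2.2.2, p.1, p.2.1), fun p => (p.2.2.1, p.2.2.2, p.1, p.2.1),
            fun _ => rfl, fun _ => rfl⟩ : n × n × n × n ≃ n × n × n × n)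
          (by simp) (fun _ _ => rfl)
    _ = ∑ k, ∑ l, b k * b l * ((∑ i, u i k * u i l) * ∑ j, u j k * u j l) := by
        refine Finset.sum_congr rfl fun k _ => Finset.sum_congr rfl fun l _ => ?_
        rw [Finset.sum_mul_sum, Finset.mul_sum]
        exact Finset.sum_congr rfl fun i _ => by rw [Finset.mul_sum]
    _ = ∑ k, b k ^ 2 := by
        refine Finset.sum_congr rfl fun k _ => ?_
        simp only [h3, mul_ite, mul_one, mul_zero]
        simp [sq]

theorem trace_form {u : n → n → ℝ} (h3 : ∀ k l, ∑ i, u i k * u i l = if k = l then 1 else 0)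
    (b : n → ℝ) : ∑ i, ∑ k, b k * (u i k * u i k) = ∑ k, b k := by
  rw [Finset.sum_comm]
  refine Finset.sum_congr rfl fun k _ => ?_
  rw [← Finset.mul_sum, h3]; simp

theorem trace_sq_le {N : Matrix n n ℝ} (hN : N.IsHermitian) :
    (∑ i, N i i) ^ 2 ≤ N.rank * ∑ i, ∑ j, N i j ^ 2 := by
  obtain ⟨u, h1, -, h3⟩ := spec_entries hN
  simp only [h1]
  rw [frob h3, trace_form h3, hN.rank_eq_card_non_zero_eigs, Fintype.card_subtype]
  rw [← Finset.sum_filter_ne_zero Finset.univ (f := hN.eigenvalues)]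
  refine (sq_sum_le_card_mul_sum_sq).trans ?_
  refine mul_le_mul_of_nonneg_left ?_ (Nat.cast_nonneg _)
  exact Finset.sum_le_sum_of_subset_of_nonneg (Finset.filter_subset _ _) fun _ _ _ => sq_nonneg _

theorem entry_bound {u : n → n → ℝ} (h2 : ∀ i j, ∑ k, u i k * u j k = if i = j then 1 else 0)
    (b : n → ℝ) (hb : ∀ k, |b k| ≤ 2) (i j : n) : |∑ k, b k * (u i k * u j k)| ≤ 2 := by
  calc |∑ k, b k * (u i k * u j k)| ≤ ∑ k, |b k * (u i k * u j k)| := Finset.abs_sum_le_sum_abs _ _
    _ ≤ ∑ k, (u i k * u i k + u j k * u j k) := by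
        refine Finset.sum_le_sum fun k _ => ?_
        rw [abs_mul, abs_mul]
        have h := hb k
        have e1 : u i k * u i k = |u i k| * |u i k| := (abs_mul_abs_self _).symm
        have e2 : u j k * u j k = |u j k| * |u j k| := (abs_mul_abs_self _).symm
        rw [e1, e2]
        nlinarith [abs_nonneg (u i k), abs_nonneg (u j k), sq_nonneg (|u i k| - |u j k|),
          mul_nonneg (abs_nonneg (u i k)) (abs_nonneg (u j k))]
    _ = 2 := by rw [Finset.sum_add_distrib, h2, h2]; norm_num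

/-- The key inequality. -/
theorem key {A : Matrix n n ℝ} (hA : A.IsHermitian) (h01 : ∀ i j, A i j = 0 ∨ A i j = 1)
    (hd : ∀ i, A i i = 0) (T : Finset n) (hb : ∀ k ∉ T, |hA.eigenvalues k| ≤ 2)
    (hpos : 0 ≤ ∑ k ∈ Tᶜ, hA.eigenvalues k) :
    (∑ k ∈ Tᶜ, hA.eigenvalues k) ^ 2 ≤
      ((T.card : ℝ) ^ 2 + T.card) * (9 * ∑ k ∈ Tᶜ, hA.eigenvalues k ^ 2) := by
  obtain ⟨u, h1, h2, h3⟩ := spec_entries hA
  set μ := hA.eigenvalues
  let b : n → ℝ := fun k => if k ∈ T then 0 else μ k
  let B : n → n → ℝ := fun i j => ∑ k, b k * (u i k * u j k)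
  let R : n → n → ℝ := fun i j => ∑ k : T, μ k * (u i k * u j k)
  have hAB : ∀ i j, R i j = A i j - B i j := by
    intro i j
    rw [h1, eq_sub_iff_add_eq]
    simp only [R, B]
    rw [Finset.sum_coe_sort T fun k => μ k * (u i k * u j k)]
    rw [← Finset.sum_add_sum_compl T (f := fun k => μ k * (u i k * u j k)),
      ← Finset.sum_add_sum_compl T (f := fun k => b k * (u i k * u j k))]
    rw [Finset.sum_eq_zero (s := T) (f := fun k => b k * (u i k * u j k))
      (fun k hk => by simp [b, hk]), zero_add]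
    congr 1
    exact Finset.sum_congr rfl fun k hk => by simp [b, Finset.mem_compl.1 hk]
  let X : Matrix n ((T × T) ⊕ T) ℝ := Matrix.of fun i c =>
    match c with
    | .inl (k, l) => μ k * μ l * (u i k * u i l)
    | .inr k => -(μ k * u i k)
  let Y : Matrix ((T × T) ⊕ T) n ℝ := Matrix.of fun c j =>
    match c with
    | .inl (k, l) => u j k * u j l
    | .inr k => u j k
  have hN : ∀ i j, (X * Y) i j = R i j ^ 2 - R i j := by
    intro i j
    simp only [Matrix.mul_apply, Fintype.sum_sum_type, Fintype.sum_prod_type, X, Y, R,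
      Matrix.of_apply]
    rw [sq, Finset.sum_mul_sum, sub_eq_add_neg, ← Finset.sum_neg_distrib]
    congr 1
    · exact Finset.sum_congr rfl fun k _ => Finset.sum_congr rfl fun l _ => by ring
    · exact Finset.sum_congr rfl fun k _ => by ring
  have hsym : (X * Y).IsHermitian := by
    ext i j
    rw [Matrix.conjTranspose_apply, star_trivial, hN, hN]
    have : R j i = R i j := Finset.sum_congr rfl fun k _ => by ring
    rw [this]
  have hrank : ((X * Y).rank : ℝ) ≤ (T.card : ℝ) ^ 2 + T.card := by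
    have := (Matrix.rank_mul_le_left X Y).trans (Matrix.rank_le_card_width X)
    simp only [Fintype.card_sum, Fintype.card_prod, Fintype.card_coe] at this
    rw [sq]; exact_mod_cast this
  have hBb : ∀ i j, |B i j| ≤ 2 := entry_bound h2 b fun k => by
    by_cases hk : k ∈ T
    · simp [b, hk]
    · simpa [b, hk] using hb k hk
  have hsb : ∑ k, b k = ∑ k ∈ Tᶜ, μ k := by
    rw [← Finset.sum_add_sum_compl T, Finset.sum_eq_zero (s := T) (fun k hk => by simp [b, hk]),
      zero_add]
    exact Finset.sum_congr rfl fun k hk => by simp [b, Finset.mem_compl.1 hk]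
  have hsb2 : ∑ k, b k ^ 2 = ∑ k ∈ Tᶜ, μ k ^ 2 := by
    rw [← Finset.sum_add_sum_compl T, Finset.sum_eq_zero (s := T) (fun k hk => by simp [b, hk]),
      zero_add]
    exact Finset.sum_congr rfl fun k hk => by simp [b, Finset.mem_compl.1 hk]
  have htr : ∑ k ∈ Tᶜ, μ k ≤ ∑ i, (X * Y) i i := by
    rw [← hsb, ← trace_form h3 b]
    refine Finset.sum_le_sum fun i _ => ?_
    rw [hN, hAB, hd]
    show B i i ≤ _
    nlinarith [sq_nonneg (B i i)]
  have hfr : ∑ i, ∑ j, (X * Y) i j ^ 2 ≤ 9 * ∑ k ∈ Tᶜ, μ k ^ 2 := by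
    rw [← hsb2, ← frob h3 b, Finset.mul_sum]
    refine Finset.sum_le_sum fun i _ => ?_
    rw [Finset.mul_sum]
    refine Finset.sum_le_sum fun j _ => ?_
    rw [hN, hAB]
    show _ ≤ 9 * B i j ^ 2
    obtain ⟨h4, h5⟩ := abs_le.1 (hBb i j)
    rcases h01 i j with h | h
    · rw [h]
      have : ((0 - B i j) ^ 2 - (0 - B i j)) ^ 2 = (B i j + 1) ^ 2 * B i j ^ 2 := by ring
      rw [this]
      exact mul_le_mul_of_nonneg_right (by nlinarith) (sq_nonneg _)
    · rw [h]
      have : ((1 - B i j) ^ 2 - (1 - B i j)) ^ 2 = (B i j - 1) ^ 2 * B i j ^ 2 := by ring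
      rw [this]
      exact mul_le_mul_of_nonneg_right (by nlinarith) (sq_nonneg _)
  calc (∑ k ∈ Tᶜ, μ k) ^ 2 ≤ (∑ i, (X * Y) i i) ^ 2 := by gcongr
    _ ≤ (X * Y).rank * ∑ i, ∑ j, (X * Y) i j ^ 2 := trace_sq_le hsym
    _ ≤ _ := by
      refine mul_le_mul hrank hfr ?_ (by positivity)
      exact Finset.sum_nonneg fun i _ => Finset.sum_nonneg fun j _ => sq_nonneg _

end Pool.Agent.P.MP_4bb7d7_co
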