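import Pool.Agent.P.MP_4bb7d7_co.Main

namespace Pool.Agent.P.MP_4bb7d7_co.VariantGolden

open Pool.Agent.P.MP_4bb7d7_co

theorem result : ∃ l : ℝ, IsIntegral ℤ l ∧ 2 ≤ (minpoly ℚ l).natDegree ∧
    (∃ (k : ℕ) (G : SimpleGraph (Fin k)), 0 < mult G l) ∧
    ∃ c : ℝ, 0 < c ∧ ∃ n₀ : ℕ, ∀ n ≥ n₀,
      (maxMult n l : ℝ) ≤ n / (minpoly ℚ l).natDegree - c * √n :=
  Pool.Agent.P.MP_4bb7d7_co.main

end Pool.Agent.P.MP_4bb7d7_co.VariantGolden
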